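import Mathlib

/-!
Digraphs, orientations of a graph, directed chromatic threshold and directed chromatic profile.
-/

namespace Pool.Agent.Q110.OC

/-- `R` is an orientation of the simple graph `H`: every edge of `H` gets exactly one direction,
and there are no other arcs. -/
def IsOrientation {W : Type} (H : SimpleGraph W) (R : W → W → Prop) : Prop :=
  (∀ u v, R u v → H.Adj u v) ∧
    ∀ u v, H.Adj u v → (R u v ∧ ¬ R v u) ∨ (R v u ∧ ¬ R u v)

/-- The digraph with arc relation `A` contains the digraph with arc relation `R` as a (not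
necessarily induced) subdigraph. -/
def Contains {V W : Type} (A : V → V → Prop) (R : W → W → Prop) : Prop :=
  ∃ f : W → V, Function.Injective f ∧ ∀ u v, R u v → A (f u) (f v)

/-- The out-degree of the vertex `v` in the digraph `A`. -/
noncomputable def outDeg {V : Type} (A : V → V → Prop) (v : V) : ℕ := Set.ncard {w | A v w}

/-- The underlying undirected graph of `A` has chromatic number at most `k`. -/
def ChiLE {V : Type} (A : V → V → Prop) (k : ℕ) : Prop :=
  ∃ c : V → Fin k, ∀ u v, A u v → c u ≠ c v

/-- `A` is a digraph on `n` vertices without loops, with no subdigraph `R`, and with minimum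
out-degree at least `d * n`. -/
def Good {W : Type} (R : W → W → Prop) (d : ℝ) (n : ℕ) (A : Fin n → Fin n → Prop) : Prop :=
  (∀ v, ¬ A v v) ∧ ¬ Contains A R ∧ ∀ v, d * n ≤ (outDeg A v : ℝ)

/-- The directed chromatic threshold of the digraph `R`. -/
noncomputable def threshold {W : Type} (R : W → W → Prop) : ℝ :=
  sInf {d : ℝ | 0 ≤ d ∧ ∃ C : ℕ, ∀ (n : ℕ) (A : Fin n → Fin n → Prop), Good R d n A → ChiLE A C}

/-- The directed chromatic profile of `R` at `k`, for large digraphs. -/
noncomputable def profile {W : Type} (R : W → W → Prop) (k : ℕ) : ℝ :=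
  sInf {d : ℝ | 0 ≤ d ∧ ∃ n₀ : ℕ, ∀ n ≥ n₀, ∀ A : Fin n → Fin n → Prop,
    Good R d n A → ChiLE A k}

/-- The directed chromatic profile of `R` at `k`, with all digraphs, small ones included. -/
noncomputable def profileAll {W : Type} (R : W → W → Prop) (k : ℕ) : ℝ :=
  sInf {d : ℝ | 0 ≤ d ∧ ∀ (n : ℕ) (A : Fin n → Fin n → Prop), Good R d n A → ChiLE A k}

end Pool.Agent.Q110.OC
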