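import Mathlib
import Pool.Agent.Q110.OC.Defs

namespace Pool.Agent.Q110.OC

open Finset Classical

variable {V : Type}

/-- a directed 4-cycle inside `S` -/
def C4 (A : V → V → Prop) (S : Finset V) : Prop :=
  ∃ a b c d, a ∈ S ∧ b ∈ S ∧ c ∈ S ∧ d ∈ S ∧ A a b ∧ A b c ∧ A c d ∧ A d a ∧ a ≠ c ∧ b ≠ d

lemma double_count (A : V → V → Prop) (S T : Finset V) :
    ∑ a ∈ S, (T.filter (fun b => A a b)).card = ∑ b ∈ T, (S.filter (fun a => A a b)).card := by
  have := Finset.sum_card_bipartiteAbove_eq_sum_card_bipartiteBelow (s := S) (t := T) A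
  simpa [Finset.bipartiteAbove, Finset.bipartiteBelow] using this

/-- averaging -/
lemma exists_large_in (A : V → V → Prop) (S T : Finset V) (hT : T.Nonempty) (δ e : ℕ)
    (h : ∀ v ∈ S, δ ≤ (T.filter (fun b => A v b)).card) (he : e * T.card ≤ δ * S.card) :
    ∃ u ∈ T, e ≤ (S.filter (fun a => A a u)).card := by
  by_contra hcon
  push Not at hcon
  have h1 : ∑ b ∈ T, (S.filter (fun a => A a b)).card < ∑ b ∈ T, e :=
    Finset.sum_lt_sum_of_nonempty hT hcon
  have h2 : ∑ a ∈ S, δ ≤ ∑ a ∈ S, (T.filter (fun b => A a b)).card := Finset.sum_le_sum h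
  rw [double_count] at h2
  simp only [Finset.sum_const, smul_eq_mul] at h1 h2
  nlinarith [mul_comm e T.card, mul_comm δ S.card]

/-- two subsets of a set meet in many points -/
lemma inter_large {S X Y : Finset V} (hX : X ⊆ S) (hY : Y ⊆ S) :
    X.card + Y.card ≤ (X ∩ Y).card + S.card := by
  have h1 := Finset.card_union_add_card_inter X Y
  have h2 := Finset.card_le_card (Finset.union_subset hX hY)
  omega

/-- pick an element of a large set avoiding a small one -/
lemma exists_avoid {X F : Finset V} (h : F.card < X.card) : ∃ x ∈ X, x ∉ F := by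
  by_contra hcon
  push Not at hcon
  have := Finset.card_le_card (show X ⊆ F from hcon)
  omega

lemma lemA (A : V → V → Prop) (S : Finset V) (hS : S.Nonempty)
    (h : ∀ v ∈ S, S.card + 2 ≤ 2 * (S.filter (fun b => A v b)).card) : C4 A S := by
  obtain ⟨u, hu, hin⟩ := exists_large_in A S S hS ((S.card + 3) / 2) ((S.card + 3) / 2)
    (fun v hv => by have := h v hv; omega) le_rfl
  have hpos : 0 < S.card := Finset.card_pos.mpr hS
  obtain ⟨a, ha, -⟩ := exists_avoid (X := S.filter (fun b => A u b)) (F := ∅)
    (by have := h u hu; simp only [Finset.card_empty]; omega)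
  rw [Finset.mem_filter] at ha
  obtain ⟨b, hb, hbu⟩ := exists_avoid (X := S.filter (fun b => A a b)) (F := {u})
    (by have := h a ha.1; simp only [Finset.card_singleton]; omega)
  rw [Finset.mem_filter] at hb
  obtain ⟨c, hc, hca⟩ := exists_avoid
    (X := (S.filter (fun v => A b v)) ∩ (S.filter (fun v => A v u))) (F := {a})
    (by
      have h1 := h b hb.1
      have h2 := inter_large (S := S) (X := S.filter (fun v => A b v))
        (Y := S.filter (fun v => A v u)) (Finset.filter_subset _ _) (Finset.filter_subset _ _)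
      simp only [Finset.card_singleton]
      omega)
  rw [Finset.mem_inter, Finset.mem_filter, Finset.mem_filter] at hc
  rw [Finset.mem_singleton] at hca hbu
  exact ⟨u, a, b, c, hu, ha.1, hb.1, hc.1.1, ha.2, hb.2, hc.1.2, hc.2.2, fun e => hbu e.symm,
    fun e => hca e.symm⟩

end Pool.Agent.Q110.OC
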