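import Mathlib
import Pool.Agent.Q110.OC.Basic

namespace Pool.Agent.Q110.OC

open Finset Classical

variable {V : Type}

/-- out-neighbourhood -/
noncomputable def nb [Fintype V] (A : V → V → Prop) (v : V) : Finset V :=
  Finset.univ.filter (fun b => A v b)

lemma mem_nb [Fintype V] (A : V → V → Prop) (v b : V) : b ∈ nb A v ↔ A v b := by simp [nb]

lemma outDeg_eq [Fintype V] (A : V → V → Prop) (v : V) : outDeg A v = (nb A v).card := by
  rw [outDeg, nb, ← Set.ncard_coe_finset]
  congr 1
  ext x
  simp

/-- digraphs with large minimum out-degree in which the ends of an arc never are both similar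
to a third vertex are bipartite -/
lemma lemC [Fintype V] (A : V → V → Prop) (δ : ℕ)
    (hn : 1000 ≤ Fintype.card V) (hδ : 49 * Fintype.card V ≤ 100 * δ)
    (h : ∀ v, δ ≤ (nb A v).card)
    (hno : ∀ y z x, A y z → x ≠ y → x ≠ z →
      ¬ (3 ≤ (nb A x ∩ nb A y).card ∧ 3 ≤ (nb A x ∩ nb A z).card)) : ChiLE A 2 := by
  obtain ⟨n, hnn⟩ : ∃ n, n = Fintype.card V := ⟨_, rfl⟩
  rw [← hnn] at hn hδ
  have huniv : (Finset.univ : Finset V).card = n := by rw [hnn]; rfl
  -- symmetric form
  have F1 : ∀ y z x, (A y z ∨ A z y) → x ≠ y → x ≠ z → 3 ≤ (nb A x ∩ nb A y).card →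
      3 ≤ (nb A x ∩ nb A z).card → False := by
    intro y z x hyz hxy hxz h1 h2
    rcases hyz with hyz | hyz
    · exact hno y z x hyz hxy hxz ⟨h1, h2⟩
    · exact hno z y x hyz hxz hxy ⟨h2, h1⟩
  have claim1 : ∀ y z, (A y z ∨ A z y) → 100 * (nb A y ∩ nb A z).card < 15 * n := by
    intro y z hyz
    by_contra hbig
    push Not at hbig
    obtain ⟨W, hW⟩ : ∃ W, W = nb A y ∩ nb A z := ⟨_, rfl⟩
    rw [← hW] at hbig
    have hWy : W ⊆ nb A y := by rw [hW]; exact Finset.inter_subset_left
    have hWz : W ⊆ nb A z := by rw [hW]; exact Finset.inter_subset_right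
    have hx : ∀ x, x ≠ y → x ≠ z → (nb A x ∩ W).card ≤ 2 := by
      intro x hxy hxz
      by_contra hc
      push Not at hc
      have h1 : (nb A x ∩ W).card ≤ (nb A x ∩ nb A y).card :=
        Finset.card_le_card (Finset.inter_subset_inter le_rfl hWy)
      have h2 : (nb A x ∩ W).card ≤ (nb A x ∩ nb A z).card :=
        Finset.card_le_card (Finset.inter_subset_inter le_rfl hWz)
      exact F1 y z x hyz hxy hxz (by omega) (by omega)
    have hxx : ∀ x x', x ≠ y → x ≠ z → x' ≠ y → x' ≠ z → 3 ≤ (nb A x ∩ nb A x').card := by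
      intro x x' h1 h2 h3 h4
      have e1 := hx x h1 h2
      have e2 := hx x' h3 h4
      have e3 := Finset.card_sdiff_add_card_inter (nb A x) W
      have e4 := Finset.card_sdiff_add_card_inter (nb A x') W
      have e5 := h x
      have e6 := h x'
      have e7 := inter_large (S := Finset.univ \ W) (X := nb A x \ W) (Y := nb A x' \ W)
        (Finset.sdiff_subset_sdiff (Finset.subset_univ _) le_rfl)
        (Finset.sdiff_subset_sdiff (Finset.subset_univ _) le_rfl)
      have e8 : ((Finset.univ : Finset V) \ W).card + W.card = (Finset.univ : Finset V).card :=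
        Finset.card_sdiff_add_card_eq_card (Finset.subset_univ _)
      have e9 : ((nb A x \ W) ∩ (nb A x' \ W)).card ≤ (nb A x ∩ nb A x').card :=
        Finset.card_le_card (Finset.inter_subset_inter Finset.sdiff_subset Finset.sdiff_subset)
      rw [huniv] at e8
      omega
    obtain ⟨x1, -, hx1⟩ := exists_avoid (X := (Finset.univ : Finset V)) (F := {y, z})
      (by have := Finset.card_le_two (a := y) (b := z); omega)
    obtain ⟨x2, hx2m, hx2⟩ := exists_avoid (X := nb A x1) (F := {y, z})
      (by have := Finset.card_le_two (a := y) (b := z); have := h x1; omega)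
    obtain ⟨x3, -, hx3⟩ := exists_avoid (X := (Finset.univ : Finset V)) (F := {y, z, x1, x2})
      (by have := Finset.card_le_four (a := y) (b := z) (c := x1) (d := x2); omega)
    simp only [Finset.mem_insert, Finset.mem_singleton, not_or] at hx1 hx2 hx3
    rw [mem_nb] at hx2m
    exact F1 x1 x2 x3 (Or.inl hx2m) hx3.2.2.1 hx3.2.2.2 (hxx x3 x1 hx3.1 hx3.2.1 hx1.1 hx1.2)
      (hxx x3 x2 hx3.1 hx3.2.1 hx2.1 hx2.2)
  have F2 : ∀ u v w, 15 * n ≤ 100 * (nb A u ∩ nb A v).card ∨
      15 * n ≤ 100 * (nb A u ∩ nb A w).card ∨ 15 * n ≤ 100 * (nb A v ∩ nb A w).card := by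
    intro u v w
    by_contra hc
    push Not at hc
    have e1 := Finset.card_union_add_card_inter (nb A u) (nb A v)
    have e2 := Finset.card_union_add_card_inter (nb A u ∪ nb A v) (nb A w)
    have e3 : ((nb A u ∪ nb A v) ∩ nb A w).card ≤ (nb A u ∩ nb A w).card + (nb A v ∩ nb A w).card := by
      rw [Finset.union_inter_distrib_right]
      exact Finset.card_union_le _ _
    have e4 : (nb A u ∪ nb A v ∪ nb A w).card ≤ (Finset.univ : Finset V).card :=
      Finset.card_le_card (Finset.subset_univ _)
    rw [huniv] at e4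
    have e5 := h u
    have e6 := h v
    have e7 := h w
    omega
  obtain ⟨p, -, -⟩ := exists_avoid (X := (Finset.univ : Finset V)) (F := ∅)
    (by simp only [Finset.card_empty]; omega)
  obtain ⟨q, hq, -⟩ := exists_avoid (X := nb A p) (F := ∅)
    (by simp only [Finset.card_empty]; have := h p; omega)
  rw [mem_nb] at hq
  refine ⟨fun v => if 15 * n ≤ 100 * (nb A v ∩ nb A p).card then 0 else 1, ?_⟩
  intro u v huv hcol
  by_cases hu : 15 * n ≤ 100 * (nb A u ∩ nb A p).card
  · by_cases hv : 15 * n ≤ 100 * (nb A v ∩ nb A p).card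
    · by_cases hup : u = p
      · rw [hup] at huv
        have := claim1 v p (Or.inr huv)
        omega
      · by_cases hvp : v = p
        · rw [hvp] at huv
          have := claim1 u p (Or.inl huv)
          omega
        · rw [Finset.inter_comm] at hu hv
          exact F1 u v p (Or.inl huv) (fun e => hup e.symm) (fun e => hvp e.symm)
            (by omega) (by omega)
    · simp [hu, hv] at hcol
  · by_cases hv : 15 * n ≤ 100 * (nb A v ∩ nb A p).card
    · simp [hu, hv] at hcol
    · have hpq := claim1 p q (Or.inl hq)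
      have huq : 15 * n ≤ 100 * (nb A u ∩ nb A q).card := by
        rcases F2 u p q with e | e | e
        · omega
        · exact e
        · omega
      have hvq : 15 * n ≤ 100 * (nb A v ∩ nb A q).card := by
        rcases F2 v p q with e | e | e
        · omega
        · exact e
        · omega
      by_cases hqu : u = q
      · rw [hqu] at huv
        have := claim1 v q (Or.inr huv)
        omega
      · by_cases hqv : v = q
        · rw [hqv] at huv
          have := claim1 u q (Or.inl huv)
          omega
        · rw [Finset.inter_comm] at huq hvq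
          exact F1 u v q (Or.inl huv) (fun e => hqu e.symm) (fun e => hqv e.symm)
            (by omega) (by omega)

end Pool.Agent.Q110.OC
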