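import Mathlib
import Pool.Agent.Q110.OC.LemC

namespace Pool.Agent.Q110.OC

open Finset Classical

variable {V : Type}

/-- the digraph `A` restricted to `S` can be coloured with `k` colours -/
def ColOn (A : V → V → Prop) (S : Finset V) (k : ℕ) : Prop :=
  ∃ c : V → ℕ, (∀ v ∈ S, c v < k) ∧ ∀ u ∈ S, ∀ v ∈ S, A u v → c u ≠ c v

lemma ColOn.mono {A : V → V → Prop} {S S' : Finset V} {k k' : ℕ} (h : ColOn A S k) (hS : S' ⊆ S)
    (hk : k ≤ k') : ColOn A S' k' := by
  obtain ⟨c, h1, h2⟩ := h
  exact ⟨c, fun v hv => lt_of_lt_of_le (h1 v (hS hv)) hk,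
    fun u hu v hv huv => h2 u (hS hu) v (hS hv) huv⟩

lemma ColOn.union {A : V → V → Prop} {S S' : Finset V} {k k' : ℕ} (h : ColOn A S k)
    (h' : ColOn A S' k') : ColOn A (S ∪ S') (k + k') := by
  obtain ⟨c, h1, h2⟩ := h
  obtain ⟨c', h1', h2'⟩ := h'
  refine ⟨fun v => if v ∈ S then c v else k + c' v, ?_, ?_⟩
  · intro v hv
    by_cases hvS : v ∈ S
    · have := h1 v hvS
      simp only [hvS, if_true]
      omega
    · have hv' : v ∈ S' := by
        rcases Finset.mem_union.1 hv with h | h
        · exact absurd h hvS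
        · exact h
      have := h1' v hv'
      simp only [hvS, if_false]
      omega
  · intro u hu v hv huv
    by_cases hus : u ∈ S
    · by_cases hvs : v ∈ S
      · simp only [hus, hvs, if_true]
        exact h2 u hus v hvs huv
      · have := h1 u hus
        simp only [hus, hvs, if_true, if_false]
        omega
    · have hu' : u ∈ S' := by
        rcases Finset.mem_union.1 hu with h | h
        · exact absurd h hus
        · exact h
      by_cases hvs : v ∈ S
      · have := h1 v hvs
        simp only [hus, hvs, if_true, if_false]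
        omega
      · have hv' : v ∈ S' := by
          rcases Finset.mem_union.1 hv with h | h
          · exact absurd h hvs
          · exact h
        have := h2' u hu' v hv' huv
        simp only [hus, hvs, if_false]
        omega

lemma colOn_indep {A : V → V → Prop} {S : Finset V} (h : ∀ u ∈ S, ∀ v ∈ S, ¬ A u v) :
    ColOn A S 1 :=
  ⟨fun _ => 0, fun _ _ => Nat.one_pos, fun u hu v hv huv => absurd huv (h u hu v hv)⟩

lemma colOn_empty (A : V → V → Prop) (k : ℕ) : ColOn A ∅ k :=
  ⟨fun _ => 0, fun _ h => absurd h (Finset.notMem_empty _),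
    fun _ h => absurd h (Finset.notMem_empty _)⟩

lemma colOn_biUnion {A : V → V → Prop} (F : Finset V) (M : V → Finset V) (k : ℕ)
    (h : ∀ x ∈ F, ColOn A (M x) k) : ColOn A (F.biUnion M) (F.card * k) := by
  induction F using Finset.induction_on with
  | empty => simpa using colOn_empty A 0
  | insert a F ha ih =>
    rw [Finset.biUnion_insert, Finset.card_insert_of_notMem ha, Nat.succ_mul, Nat.add_comm]
    exact (h a (Finset.mem_insert_self _ _)).union
      (ih fun x hx => h x (Finset.mem_insert_of_mem hx))

lemma ChiLE.of_colOn {n : ℕ} {A : Fin n → Fin n → Prop} {k : ℕ}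
    (h : ColOn A Finset.univ k) : ChiLE A k := by
  obtain ⟨c, h1, h2⟩ := h
  refine ⟨fun v => ⟨c v, h1 v (Finset.mem_univ v)⟩, ?_⟩
  intro u v huv e
  exact h2 u (Finset.mem_univ _) v (Finset.mem_univ _) huv (by simpa using e)

lemma ChiLE.mono {A : V → V → Prop} {k k' : ℕ} (h : ChiLE A k) (hk : k ≤ k') : ChiLE A k' := by
  obtain ⟨c, hc⟩ := h
  exact ⟨fun v => Fin.castLE hk (c v), fun u v huv e => hc u v huv (by simpa using e)⟩

lemma chiLE_self {n : ℕ} {A : Fin n → Fin n → Prop} (hA : ∀ v, ¬ A v v) : ChiLE A n :=
  ⟨fun v => v, fun u v huv e => hA v (by change u = v at e; rw [e] at huv; exact huv)⟩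

/-- degenerate digraphs have small chromatic number -/
lemma colOn_degenerate (A : V → V → Prop) (hA : ∀ v, ¬ A v v) (k : ℕ) (S : Finset V)
    (h : ∀ W ⊆ S, W.Nonempty → ∃ v ∈ W, (W.filter (fun w => A v w ∨ A w v)).card < k) :
    ColOn A S k := by
  induction S using Finset.strongInduction with
  | H S ih =>
    by_cases hS : S.Nonempty
    · obtain ⟨v, hv, hvc⟩ := h S le_rfl hS
      obtain ⟨c, h1, h2⟩ := ih (S.erase v) (Finset.erase_ssubset hv)
        (fun W hW hWne => h W (hW.trans (Finset.erase_subset _ _)) hWne)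
      have hex : ∃ j ∈ Finset.range k, j ∉ ((S.filter (fun w => A v w ∨ A w v)).image c) := by
        apply exists_avoid
        rw [Finset.card_range]
        exact lt_of_le_of_lt Finset.card_image_le hvc
      obtain ⟨j, hj, hjn⟩ := hex
      rw [Finset.mem_range] at hj
      refine ⟨Function.update c v j, ?_, ?_⟩
      · intro w hw
        by_cases hwv : w = v
        · subst hwv; simpa using hj
        · rw [Function.update_of_ne hwv]
          exact h1 w (Finset.mem_erase.2 ⟨hwv, hw⟩)
      · intro u hu w hw huw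
        by_cases huv : u = v
        · subst huv
          have hwu : w ≠ u := fun e => hA u (by rw [e] at huw; exact huw)
          rw [Function.update_self, Function.update_of_ne hwu]
          intro e
          exact hjn (Finset.mem_image.2 ⟨w, Finset.mem_filter.2 ⟨hw, Or.inl huw⟩, e.symm⟩)
        · by_cases hwv : w = v
          · subst hwv
            rw [Function.update_self, Function.update_of_ne huv]
            intro e
            exact hjn (Finset.mem_image.2 ⟨u, Finset.mem_filter.2 ⟨hu, Or.inr huw⟩, e⟩)
          · rw [Function.update_of_ne huv, Function.update_of_ne hwv]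
            exact h2 u (Finset.mem_erase.2 ⟨huv, hu⟩) w (Finset.mem_erase.2 ⟨hwv, hw⟩) huw
    · rw [Finset.not_nonempty_iff_eq_empty] at hS
      subst hS
      exact colOn_empty A k

/-- few vertices have pairwise nearly disjoint large out-neighbourhoods -/
lemma card_mul_le (M : V → Finset V) (e : ℕ) (F : Finset V) (h : ∀ v ∈ F, e ≤ (M v).card)
    (h2 : ∀ u ∈ F, ∀ v ∈ F, u ≠ v → (M u ∩ M v).card ≤ 2) :
    F.card * e ≤ (F.biUnion M).card + F.card ^ 2 := by
  induction F using Finset.induction_on with
  | empty => simp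
  | insert a F ha ih =>
    have ih' := ih (fun v hv => h v (Finset.mem_insert_of_mem hv))
      (fun u hu v hv huv => h2 u (Finset.mem_insert_of_mem hu) v (Finset.mem_insert_of_mem hv) huv)
    rw [Finset.biUnion_insert, Finset.card_insert_of_notMem ha]
    have h3 := Finset.card_union_add_card_inter (M a) (F.biUnion M)
    have h4 : (M a ∩ F.biUnion M).card ≤ F.card * 2 := by
      rw [Finset.inter_biUnion]
      apply Finset.card_biUnion_le_card_mul
      intro v hv
      refine h2 a (Finset.mem_insert_self _ _) v (Finset.mem_insert_of_mem hv) ?_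
      intro e
      exact ha (e ▸ hv)
    have h5 := h a (Finset.mem_insert_self _ _)
    nlinarith

/-- some two vertices have three common out-neighbours outside `F` -/
lemma exists_common [Fintype V] (A : V → V → Prop) (δ T : ℕ)
    (hT : 4 * Fintype.card V ≤ T * δ) (hn : 100 * T ^ 2 + 100 ≤ Fintype.card V)
    (h : ∀ v, δ ≤ (nb A v).card) (F : Finset V) (hF : F.card ≤ 20) (S : Finset V)
    (hS : T ≤ S.card) :
    ∃ u ∈ S, ∃ v ∈ S, u ≠ v ∧ 3 ≤ ((nb A u \ F) ∩ (nb A v \ F)).card := by
  by_contra hcon
  push Not at hcon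
  obtain ⟨S', hS'S, hS'c⟩ := Finset.exists_subset_card_eq hS
  have h1 := card_mul_le (fun v => nb A v \ F) (δ - 20) S'
    (fun v hv => by
      have h2 := Finset.le_card_sdiff F (nb A v)
      have h3 := h v
      show δ - 20 ≤ (nb A v \ F).card
      omega)
    (fun u hu v hv huv => by
      have := hcon u (hS'S hu) v (hS'S hv) huv
      show ((nb A u \ F) ∩ (nb A v \ F)).card ≤ 2
      omega)
  rw [hS'c] at h1
  have h2 : (S'.biUnion fun v => nb A v \ F).card ≤ Fintype.card V := Finset.card_le_univ _
  have h3 : T * δ ≤ T * (δ - 20) + T * 20 := by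
    rw [← Nat.mul_add]
    exact Nat.mul_le_mul_left _ (by omega)
  have h4 : T ≤ T ^ 2 := by nlinarith [Nat.zero_le T]
  nlinarith

end Pool.Agent.Q110.OC
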