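import Mathlib
import Pool.Agent.Q110.OC.Defs

/-!
For `r ≥ 1`: the 5-cycle with vertices 0,1,2,3,4, with `r` leaves attached to the vertex 0 and `r`
leaves attached to the vertex 3, and two orientations of this graph.
-/

namespace Pool.Agent.Q110.OC

/-- the arcs of `C_5'`: source 0, sink 4, directed paths of lengths 4 and 1 -/
def cyc₁ : List (Fin 5 × Fin 5) := [(0, 1), (1, 2), (2, 3), (3, 4), (0, 4)]

/-- the arcs of `C_5'''`: sources 0 and 3, sinks 2 and 4 -/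
def cyc₂ : List (Fin 5 × Fin 5) := [(0, 1), (1, 2), (3, 2), (3, 4), (0, 4)]

/-- First orientation: the 5-cycle is a `C_5'`, all leaves are out-leaves. -/
def H₁ (r : ℕ) : Fin 5 ⊕ (Fin r ⊕ Fin r) → Fin 5 ⊕ (Fin r ⊕ Fin r) → Prop
  | .inl a, .inl b => (a, b) ∈ cyc₁
  | .inl a, .inr (.inl _) => a = 0
  | .inl a, .inr (.inr _) => a = 3
  | .inr _, _ => False

/-- Second orientation: the 5-cycle is a `C_5'''`, all leaves are in-leaves. -/
def H₂ (r : ℕ) : Fin 5 ⊕ (Fin r ⊕ Fin r) → Fin 5 ⊕ (Fin r ⊕ Fin r) → Prop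
  | .inl a, .inl b => (a, b) ∈ cyc₂
  | .inr (.inl _), .inl a => a = 0
  | .inr (.inr _), .inl a => a = 3
  | _, .inr _ => False

/-- the underlying graph: a 5-cycle with `r` leaves at the vertex 0 and `r` leaves at the vertex 3 -/
def Leafy (r : ℕ) : SimpleGraph (Fin 5 ⊕ (Fin r ⊕ Fin r)) where
  Adj u v := H₁ r u v ∨ H₁ r v u
  symm := ⟨fun _ _ h => Or.symm h⟩
  loopless := ⟨by
    rintro (a | a | a) h
    · simp only [H₁, or_self] at h
      revert a
      unfold cyc₁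
      decide
    · simp [H₁] at h
    · simp [H₁] at h⟩

lemma cyc₁_or : ∀ a b : Fin 5, ((a, b) ∈ cyc₁ ∨ (b, a) ∈ cyc₁) →
    ((a, b) ∈ cyc₁ ∧ (b, a) ∉ cyc₁) ∨ ((b, a) ∈ cyc₁ ∧ (a, b) ∉ cyc₁) := by
  have h : ∀ a b : Fin 5, (a, b) ∈ cyc₁ → (b, a) ∉ cyc₁ := by decide
  rintro a b (e | e)
  · exact Or.inl ⟨e, h a b e⟩
  · exact Or.inr ⟨e, h b a e⟩

lemma cyc₂_or : ∀ a b : Fin 5, ((a, b) ∈ cyc₁ ∨ (b, a) ∈ cyc₁) →
    ((a, b) ∈ cyc₂ ∧ (b, a) ∉ cyc₂) ∨ ((b, a) ∈ cyc₂ ∧ (a, b) ∉ cyc₂) := by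
  decide

lemma cyc₂_sub : ∀ a b : Fin 5, (a, b) ∈ cyc₂ → ((a, b) ∈ cyc₁ ∨ (b, a) ∈ cyc₁) := by
  decide

lemma orient_H₁ (r : ℕ) : IsOrientation (Leafy r) (H₁ r) := by
  constructor
  · intro u v h
    exact Or.inl h
  · intro u v h
    change H₁ r u v ∨ H₁ r v u at h
    rcases u with a | a | a <;> rcases v with b | b | b <;> simp only [H₁, or_false, false_or,
      or_self] at h ⊢
    · exact cyc₁_or a b h
    · exact Or.inl ⟨h, fun e => e⟩
    · exact Or.inl ⟨h, fun e => e⟩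
    · exact Or.inr ⟨h, fun e => e⟩
    · exact Or.inr ⟨h, fun e => e⟩

lemma orient_H₂ (r : ℕ) : IsOrientation (Leafy r) (H₂ r) := by
  constructor
  · intro u v h
    change H₁ r u v ∨ H₁ r v u
    rcases u with a | a | a <;> rcases v with b | b | b <;> simp only [H₁, H₂,
      false_or] at h ⊢
    · exact cyc₂_sub a b h
    · exact h
    · exact h
  · intro u v h
    change H₁ r u v ∨ H₁ r v u at h
    rcases u with a | a | a <;> rcases v with b | b | b <;> simp only [H₁, H₂, or_false, false_or,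
      or_self] at h ⊢
    · exact cyc₂_or a b h
    · exact Or.inr ⟨h, fun e => e⟩
    · exact Or.inr ⟨h, fun e => e⟩
    · exact Or.inl ⟨h, fun e => e⟩
    · exact Or.inl ⟨h, fun e => e⟩

lemma connected_Leafy (r : ℕ) : (Leafy r).Connected := by
  rw [SimpleGraph.connected_iff_exists_forall_reachable]
  have h01 : (Leafy r).Reachable (.inl 0) (.inl 1) :=
    SimpleGraph.Adj.reachable (Or.inl (by change ((0 : Fin 5), (1 : Fin 5)) ∈ cyc₁; simp [cyc₁]))
  have h12 : (Leafy r).Reachable (.inl 1) (.inl 2) :=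
    SimpleGraph.Adj.reachable (Or.inl (by change ((1 : Fin 5), (2 : Fin 5)) ∈ cyc₁; simp [cyc₁]))
  have h23 : (Leafy r).Reachable (.inl 2) (.inl 3) :=
    SimpleGraph.Adj.reachable (Or.inl (by change ((2 : Fin 5), (3 : Fin 5)) ∈ cyc₁; simp [cyc₁]))
  have h34 : (Leafy r).Reachable (.inl 3) (.inl 4) :=
    SimpleGraph.Adj.reachable (Or.inl (by change ((3 : Fin 5), (4 : Fin 5)) ∈ cyc₁; simp [cyc₁]))
  refine ⟨.inl 0, ?_⟩
  rintro (a | a | a)
  · fin_cases a
    · exact SimpleGraph.Reachable.refl _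
    · exact h01
    · exact h01.trans h12
    · exact (h01.trans h12).trans h23
    · exact ((h01.trans h12).trans h23).trans h34
  · exact SimpleGraph.Adj.reachable (Or.inl (by change (0 : Fin 5) = 0; rfl))
  · exact ((h01.trans h12).trans h23).trans
      (SimpleGraph.Adj.reachable (Or.inl (by change (3 : Fin 5) = 3; rfl)))

end Pool.Agent.Q110.OC
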