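import Mathlib
import Pool.Agent.Q110.OC.LemC

namespace Pool.Agent.Q110.OC

open Finset Classical

variable {V : Type}

/-- ends of directed paths of length three starting at `v` -/
noncomputable def T3 [Fintype V] (A : V → V → Prop) (v : V) : Finset V :=
  Finset.univ.filter (fun w => w ≠ v ∧ ∃ a b, A v a ∧ A a b ∧ A b w ∧ b ≠ v ∧ w ≠ a)

/-- the digraph contains no `C_5'` -/
def NoC5 (A : V → V → Prop) : Prop :=
  ∀ v0 v1 v2 v3 v4, A v0 v1 → A v1 v2 → A v2 v3 → A v3 v4 → A v0 v4 → v2 ≠ v0 → v3 ≠ v0 →
    v3 ≠ v1 → v4 ≠ v1 → v4 ≠ v2 → False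

lemma T3_sim [Fintype V] (A : V → V → Prop) (hno : NoC5 A) {v w : V} (hw : w ∈ T3 A v) :
    (nb A v ∩ nb A w).card ≤ 2 := by
  simp only [T3, Finset.mem_filter, Finset.mem_univ, true_and] at hw
  obtain ⟨hwv, a, b, h1, h2, h3, h4, h5⟩ := hw
  have hsub : nb A v ∩ nb A w ⊆ {a, b} := by
    intro x hx
    rw [Finset.mem_inter, mem_nb, mem_nb] at hx
    rw [Finset.mem_insert, Finset.mem_singleton]
    by_contra hcon
    rw [not_or] at hcon
    exact hno v a b w x h1 h2 h3 hx.2 hx.1 h4 hwv h5 hcon.1 hcon.2
  exact (Finset.card_le_card hsub).trans Finset.card_le_two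

lemma T3_card [Fintype V] (A : V → V → Prop) (δ : ℕ) (hδ : 3 ≤ δ)
    (h : ∀ v, δ ≤ (nb A v).card) (v : V) : δ ≤ (T3 A v).card + 2 := by
  obtain ⟨a, ha, -⟩ := exists_avoid (X := nb A v) (F := ∅)
    (by have := h v; simp only [Finset.card_empty]; omega)
  obtain ⟨b, hb, hbv⟩ := exists_avoid (X := nb A a) (F := {v})
    (by have := h a; simp only [Finset.card_singleton]; omega)
  rw [mem_nb] at ha hb
  rw [Finset.mem_singleton] at hbv
  have hsub : nb A b \ {v, a} ⊆ T3 A v := by
    intro w hw
    rw [Finset.mem_sdiff, mem_nb, Finset.mem_insert, Finset.mem_singleton, not_or] at hw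
    simp only [T3, Finset.mem_filter, Finset.mem_univ, true_and]
    exact ⟨hw.2.1, a, b, ha, hb, hw.1, hbv, hw.2.2⟩
  have h1 := Finset.card_le_card hsub
  have h2 := Finset.le_card_sdiff {v, a} (nb A b)
  have h3 := Finset.card_le_two (a := v) (b := a)
  have h4 := h b
  omega

/-- covering by `P`, `P'` and the rest -/
lemma split3 [Fintype V] {n : ℕ} (huniv : (Finset.univ : Finset V).card = n) (P P' Z : Finset V)
    (δ : ℕ) (hPP : (P ∩ P').card ≤ 2) (hP : δ ≤ P.card) (hP' : δ ≤ P'.card) :
    Z.card + 2 * δ ≤ (Z ∩ P).card + (Z ∩ P').card + n + 2 := by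
  have h1 := Finset.card_union_add_card_inter P P'
  have h2 : Z ⊆ (Z ∩ P) ∪ (Z ∩ P') ∪ (Finset.univ \ (P ∪ P')) := by
    intro z hz
    simp only [Finset.mem_union, Finset.mem_inter, Finset.mem_sdiff, Finset.mem_univ, true_and]
    tauto
  have h3 := Finset.card_le_card h2
  have h4 := Finset.card_union_le ((Z ∩ P) ∪ (Z ∩ P')) (Finset.univ \ (P ∪ P'))
  have h5 := Finset.card_union_le (Z ∩ P) (Z ∩ P')
  have h6 := Finset.card_sdiff_add_card_eq_card (Finset.subset_univ (P ∪ P'))
  rw [huniv] at h6
  omega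

lemma same_type [Fintype V] (A : V → V → Prop) (δ : ℕ) {n : ℕ}
    (huniv : (Finset.univ : Finset V).card = n) (hn : 2000 ≤ n) (hδ : 99 * n ≤ 200 * δ)
    (h : ∀ v, δ ≤ (nb A v).card) (hno : NoC5 A) (P P' X Y : Finset V)
    (hPP : (P ∩ P').card ≤ 2) (hP : δ ≤ P.card) (hP' : δ ≤ P'.card)
    (hX : ∀ x ∈ X, (nb A x ∩ P).card ≤ 2) (hY : ∀ y ∈ Y, (nb A y ∩ P').card ≤ 2)
    (hXc : δ ≤ X.card + 2) (hYc : δ ≤ Y.card + 2) {v v' : V} (hv : A v v')
    (t : (nb A v ∩ P').card + 2 * δ < n + 7) (t' : (nb A v' ∩ P').card + 2 * δ < n + 7) :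
    False := by
  have hPP2 : P.card + P'.card ≤ n + 2 := by
    have h1 := Finset.card_union_add_card_inter P P'
    have h2 := Finset.card_le_card (Finset.subset_univ (P ∪ P'))
    rw [huniv] at h2
    omega
  have hinter : ∀ z : V, ∀ Q : Finset V, (Q \ nb A z).card + (nb A z ∩ Q).card = Q.card := by
    intro z Q
    rw [Finset.inter_comm]
    exact Finset.card_sdiff_add_card_inter Q (nb A z)
  -- key fact
  have key : ∀ a ∈ nb A v' \ {v}, (nb A a ∩ Y).card ≤ 2 := by
    intro a ha
    rw [Finset.mem_sdiff, mem_nb, Finset.mem_singleton] at ha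
    have hsub : nb A a ∩ Y ⊆ {v, v'} := by
      intro b hb
      rw [Finset.mem_inter, mem_nb] at hb
      rw [Finset.mem_insert, Finset.mem_singleton]
      by_contra hcon
      rw [not_or] at hcon
      have hT : b ∈ T3 A v := by
        simp only [T3, Finset.mem_filter, Finset.mem_univ, true_and]
        exact ⟨hcon.1, v', a, hv, ha.1, hb.1, ha.2, hcon.2⟩
      have e1 := T3_sim A hno hT
      have e2 := hY b hb.2
      have e3 := split3 huniv P P' (nb A b) δ hPP hP hP'
      have e4 := split3 huniv P P' (nb A v) δ hPP hP hP'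
      have e5 := hinter v P
      have e6 : (nb A b ∩ P).card ≤ (P \ nb A v).card + (nb A v ∩ nb A b).card := by
        have : nb A b ∩ P ⊆ (P \ nb A v) ∪ (nb A v ∩ nb A b) := by
          intro x hx
          simp only [Finset.mem_union, Finset.mem_inter, Finset.mem_sdiff] at hx ⊢
          tauto
        exact (Finset.card_le_card this).trans (Finset.card_union_le _ _)
      have e7 := h b
      have e8 := h v
      omega
    exact (Finset.card_le_card hsub).trans Finset.card_le_two
  -- size of X ∪ Y
  have hXY : (X ∩ Y).card = 0 := by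
    by_contra hne
    obtain ⟨z, hz, -⟩ := exists_avoid (X := X ∩ Y) (F := ∅)
      (by simp only [Finset.card_empty]; omega)
    rw [Finset.mem_inter] at hz
    have e1 := hX z hz.1
    have e2 := hY z hz.2
    have e3 := split3 huniv P P' (nb A z) δ hPP hP hP'
    have e4 := h z
    omega
  have hrest : (Finset.univ \ (X ∪ Y)).card + 2 * δ ≤ n + 4 := by
    have h1 := Finset.card_union_add_card_inter X Y
    have h6 := Finset.card_sdiff_add_card_eq_card (Finset.subset_univ (X ∪ Y))
    rw [huniv] at h6
    omega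
  obtain ⟨N', hN'⟩ : ∃ N', N' = nb A v' \ {v} := ⟨_, rfl⟩
  have hN'c : δ ≤ N'.card + 1 := by
    have h1 := Finset.le_card_sdiff {v} (nb A v')
    rw [Finset.card_singleton] at h1
    have h2 := h v'
    rw [hN']
    omega
  have hN'cov : N'.card ≤ (N' ∩ X).card + (N' ∩ Y).card + (Finset.univ \ (X ∪ Y)).card := by
    have h2 : N' ⊆ (N' ∩ X) ∪ (N' ∩ Y) ∪ (Finset.univ \ (X ∪ Y)) := by
      intro z hz
      simp only [Finset.mem_union, Finset.mem_inter, Finset.mem_sdiff, Finset.mem_univ, true_and]
      tauto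
    have h3 := Finset.card_le_card h2
    have h4 := Finset.card_union_le ((N' ∩ X) ∪ (N' ∩ Y)) (Finset.univ \ (X ∪ Y))
    have h5 := Finset.card_union_le (N' ∩ X) (N' ∩ Y)
    omega
  have c1 : 0 < (N' ∩ Y).card → (P ∩ Y).card + 4 * δ ≤ 2 * n + 8 := by
    intro hpos
    obtain ⟨y, hy, -⟩ := exists_avoid (X := N' ∩ Y) (F := ∅)
      (by simp only [Finset.card_empty]; omega)
    rw [Finset.mem_inter] at hy
    have e1 := key y (by rw [← hN']; exact hy.1)
    have e2 := hY y hy.2
    have e3 := split3 huniv P P' (nb A y) δ hPP hP hP'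
    have e4 := h y
    have e5 := hinter y P
    have e6 : (P ∩ Y).card ≤ (P \ nb A y).card + (nb A y ∩ Y).card := by
      have : P ∩ Y ⊆ (P \ nb A y) ∪ (nb A y ∩ Y) := by
        intro x hx
        simp only [Finset.mem_union, Finset.mem_inter, Finset.mem_sdiff] at hx ⊢
        tauto
      exact (Finset.card_le_card this).trans (Finset.card_union_le _ _)
    omega
  have c2 : 0 < (N' ∩ X).card → (P' ∩ Y).card + 4 * δ ≤ 2 * n + 8 := by
    intro hpos
    obtain ⟨x, hx, -⟩ := exists_avoid (X := N' ∩ X) (F := ∅)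
      (by simp only [Finset.card_empty]; omega)
    rw [Finset.mem_inter] at hx
    have e1 := key x (by rw [← hN']; exact hx.1)
    have e2 := hX x hx.2
    have e3 := split3 huniv P P' (nb A x) δ hPP hP hP'
    have e4 := h x
    have e5 := hinter x P'
    have e6 : (P' ∩ Y).card ≤ (P' \ nb A x).card + (nb A x ∩ Y).card := by
      have : P' ∩ Y ⊆ (P' \ nb A x) ∪ (nb A x ∩ Y) := by
        intro x hx
        simp only [Finset.mem_union, Finset.mem_inter, Finset.mem_sdiff] at hx ⊢
        tauto
      exact (Finset.card_le_card this).trans (Finset.card_union_le _ _)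
    omega
  have hYs := split3 huniv P P' Y δ hPP hP hP'
  rw [Finset.inter_comm Y P, Finset.inter_comm Y P'] at hYs
  by_cases d1 : 0 < (N' ∩ Y).card
  · have g1 := c1 d1
    by_cases d2 : 0 < (N' ∩ X).card
    · have g2 := c2 d2
      omega
    · have e1 : (N' ∩ Y).card ≤ (P ∩ Y).card + (nb A v' ∩ P').card +
          (Finset.univ \ (P ∪ P')).card := by
        have : N' ∩ Y ⊆ (P ∩ Y) ∪ (nb A v' ∩ P') ∪ (Finset.univ \ (P ∪ P')) := by
          intro x hx
          rw [hN'] at hx
          simp only [Finset.mem_union, Finset.mem_inter, Finset.mem_sdiff, Finset.mem_univ,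
            true_and] at hx ⊢
          tauto
        have h4 := Finset.card_union_le ((P ∩ Y) ∪ (nb A v' ∩ P')) (Finset.univ \ (P ∪ P'))
        have h5 := Finset.card_union_le (P ∩ Y) (nb A v' ∩ P')
        have h6 := Finset.card_le_card this
        omega
      have e2 := Finset.card_union_add_card_inter P P'
      have e3 := Finset.card_sdiff_add_card_eq_card (Finset.subset_univ (P ∪ P'))
      rw [huniv] at e3
      omega
  · have d2 : 0 < (N' ∩ X).card := by omega
    have g2 := c2 d2
    have e3 := split3 huniv P P' (nb A v') δ hPP hP hP'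
    have e4 := h v'
    have e5 := inter_large (S := P) (X := nb A v' ∩ P) (Y := P ∩ Y) Finset.inter_subset_right
      Finset.inter_subset_left
    obtain ⟨y, hy, hyv⟩ := exists_avoid (X := (nb A v' ∩ P) ∩ (P ∩ Y)) (F := {v})
      (by simp only [Finset.card_singleton]; omega)
    apply d1
    apply Finset.card_pos.2
    refine ⟨y, ?_⟩
    rw [hN']
    simp only [Finset.mem_inter, Finset.mem_sdiff] at hy ⊢
    exact ⟨⟨hy.1.1, hyv⟩, hy.2.2⟩

/-- large digraphs without `C_5'` of minimum out-degree close to `n / 2` are bipartite -/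
lemma lemD [Fintype V] (A : V → V → Prop) (δ : ℕ)
    (hn : 2000 ≤ Fintype.card V) (hδ : 99 * Fintype.card V ≤ 200 * δ)
    (h : ∀ v, δ ≤ (nb A v).card) (hno : NoC5 A) : ChiLE A 2 := by
  obtain ⟨n, hnn⟩ : ∃ n, n = Fintype.card V := ⟨_, rfl⟩
  rw [← hnn] at hn hδ
  have huniv : (Finset.univ : Finset V).card = n := by rw [hnn]; rfl
  obtain ⟨u, -, -⟩ := exists_avoid (X := (Finset.univ : Finset V)) (F := ∅)
    (by simp only [Finset.card_empty]; omega)
  have hTc := T3_card A δ (by omega) h
  obtain ⟨w, hw, -⟩ := exists_avoid (X := T3 A u) (F := ∅)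
    (by have := hTc u; simp only [Finset.card_empty]; omega)
  have hPP := T3_sim A hno hw
  have hX : ∀ x ∈ T3 A u, (nb A x ∩ nb A u).card ≤ 2 := by
    intro x hx
    rw [Finset.inter_comm]
    exact T3_sim A hno hx
  have hY : ∀ x ∈ T3 A w, (nb A x ∩ nb A w).card ≤ 2 := by
    intro x hx
    rw [Finset.inter_comm]
    exact T3_sim A hno hx
  have hXY : (T3 A u ∩ T3 A w).card = 0 := by
    by_contra hne
    obtain ⟨z, hz, -⟩ := exists_avoid (X := T3 A u ∩ T3 A w) (F := ∅)
      (by simp only [Finset.card_empty]; omega)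
    rw [Finset.mem_inter] at hz
    have e1 := hX z hz.1
    have e2 := hY z hz.2
    have e3 := split3 huniv (nb A u) (nb A w) (nb A z) δ hPP (h u) (h w)
    have e4 := h z
    omega
  have hXYc := Finset.card_union_add_card_inter (T3 A u) (T3 A w)
  have hXu := hTc u
  have hYw := hTc w
  -- every out-neighbourhood is close to one of the two sets
  have hdich : ∀ v, (nb A v ∩ nb A u).card + 2 * δ < n + 7 ∨
      (nb A v ∩ nb A w).card + 2 * δ < n + 7 := by
    intro v
    by_contra hcon
    push Not at hcon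
    have e1 := hTc v
    have e2 := inter_large (S := Finset.univ) (X := T3 A v) (Y := T3 A u ∪ T3 A w)
      (Finset.subset_univ _) (Finset.subset_univ _)
    rw [huniv] at e2
    obtain ⟨z, hz, -⟩ := exists_avoid (X := T3 A v ∩ (T3 A u ∪ T3 A w)) (F := ∅)
      (by simp only [Finset.card_empty]; omega)
    rw [Finset.mem_inter, Finset.mem_union] at hz
    have e3 := T3_sim A hno hz.1
    have e4 := h z
    rcases hz.2 with hz2 | hz2
    · have e5 := hX z hz2
      -- nb z is outside nb u and nb v
      have e6 : (nb A z).card + (nb A u ∪ nb A v).card ≤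
          (nb A v ∩ nb A z).card + (nb A z ∩ nb A u).card + n := by
        have g1 := Finset.card_union_add_card_inter (nb A z) (nb A u ∪ nb A v)
        have g2 : nb A z ∩ (nb A u ∪ nb A v) ⊆ (nb A v ∩ nb A z) ∪ (nb A z ∩ nb A u) := by
          intro x hx
          simp only [Finset.mem_union, Finset.mem_inter] at hx ⊢
          tauto
        have g3 := Finset.card_le_card g2
        have g4 := Finset.card_union_le (nb A v ∩ nb A z) (nb A z ∩ nb A u)
        have g5 := Finset.card_le_card (Finset.subset_univ (nb A z ∪ (nb A u ∪ nb A v)))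
        rw [huniv] at g5
        omega
      have e7 : (nb A u).card + (nb A v ∩ nb A w).card ≤
          (nb A u ∪ nb A v).card + (nb A u ∩ nb A w).card := by
        have g1 := Finset.card_union_add_card_inter (nb A u) (nb A v ∩ nb A w)
        have g2 : nb A u ∩ (nb A v ∩ nb A w) ⊆ nb A u ∩ nb A w := by
          intro x hx
          simp only [Finset.mem_inter] at hx ⊢
          tauto
        have g3 : nb A u ∪ (nb A v ∩ nb A w) ⊆ nb A u ∪ nb A v := by
          intro x hx
          simp only [Finset.mem_union, Finset.mem_inter] at hx ⊢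
          tauto
        have g4 := Finset.card_le_card g2
        have g5 := Finset.card_le_card g3
        omega
      have e8 := h u
      omega
    · have e5 := hY z hz2
      have e6 : (nb A z).card + (nb A w ∪ nb A v).card ≤
          (nb A v ∩ nb A z).card + (nb A z ∩ nb A w).card + n := by
        have g1 := Finset.card_union_add_card_inter (nb A z) (nb A w ∪ nb A v)
        have g2 : nb A z ∩ (nb A w ∪ nb A v) ⊆ (nb A v ∩ nb A z) ∪ (nb A z ∩ nb A w) := by
          intro x hx
          simp only [Finset.mem_union, Finset.mem_inter] at hx ⊢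
          tauto
        have g3 := Finset.card_le_card g2
        have g4 := Finset.card_union_le (nb A v ∩ nb A z) (nb A z ∩ nb A w)
        have g5 := Finset.card_le_card (Finset.subset_univ (nb A z ∪ (nb A w ∪ nb A v)))
        rw [huniv] at g5
        omega
      have e7 : (nb A w).card + (nb A v ∩ nb A u).card ≤
          (nb A w ∪ nb A v).card + (nb A u ∩ nb A w).card := by
        have g1 := Finset.card_union_add_card_inter (nb A w) (nb A v ∩ nb A u)
        have g2 : nb A w ∩ (nb A v ∩ nb A u) ⊆ nb A u ∩ nb A w := by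
          intro x hx
          simp only [Finset.mem_inter] at hx ⊢
          tauto
        have g3 : nb A w ∪ (nb A v ∩ nb A u) ⊆ nb A w ∪ nb A v := by
          intro x hx
          simp only [Finset.mem_union, Finset.mem_inter] at hx ⊢
          tauto
        have g4 := Finset.card_le_card g2
        have g5 := Finset.card_le_card g3
        omega
      have e8 := h w
      omega
  refine ⟨fun v => if (nb A v ∩ nb A u).card + 2 * δ < n + 7 then 0 else 1, ?_⟩
  intro v v' hvv hcol
  by_cases h1 : (nb A v ∩ nb A u).card + 2 * δ < n + 7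
  · by_cases h2 : (nb A v' ∩ nb A u).card + 2 * δ < n + 7
    · exact same_type A δ huniv hn hδ h hno (nb A w) (nb A u) (T3 A w) (T3 A u)
        (by rw [Finset.inter_comm]; exact hPP) (h w) (h u) hY hX hYw hXu hvv h1 h2
    · simp [h1, h2] at hcol
  · by_cases h2 : (nb A v' ∩ nb A u).card + 2 * δ < n + 7
    · simp [h1, h2] at hcol
    · exact same_type A δ huniv hn hδ h hno (nb A u) (nb A w) (T3 A u) (T3 A w)
        hPP (h u) (h w) hX hY hXu hYw hvv ((hdich v).resolve_left h1) ((hdich v').resolve_left h2)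

end Pool.Agent.Q110.OC
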