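import Mathlib
import Pool.Agent.Q110.OC.Col

namespace Pool.Agent.Q110.OC

open Finset Classical

variable {V W : Type}

lemma outDeg_le {n : ℕ} (A : Fin n → Fin n → Prop) (v : Fin n) : outDeg A v ≤ n := by
  rw [outDeg_eq]
  have := Finset.card_le_univ (nb A v)
  simpa using this

lemma good_two {R : W → W → Prop} {n : ℕ} {A : Fin n → Fin n → Prop} (h : Good R 2 n A) :
    n = 0 := by
  by_contra hn
  have h1 := h.2.2 ⟨0, Nat.pos_of_ne_zero hn⟩
  have h2 : ((outDeg A ⟨0, Nat.pos_of_ne_zero hn⟩ : ℕ) : ℝ) ≤ n := by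
    exact_mod_cast outDeg_le A _
  have h3 : (0 : ℝ) < n := by exact_mod_cast Nat.pos_of_ne_zero hn
  linarith

lemma chiLE_zero {n : ℕ} (hn : n = 0) (A : Fin n → Fin n → Prop) (k : ℕ) : ChiLE A k := by
  subst hn
  exact ⟨fun v => v.elim0, fun u => u.elim0⟩

lemma card_le_of_inj {n m : ℕ} (A : Fin n → Fin n → Prop) (u : Fin n) (g : Fin m → Fin n)
    (hg : Function.Injective g) (h : ∀ j, A u (g j)) : m ≤ outDeg A u := by
  rw [outDeg_eq]
  have h1 : (Finset.univ.image g).card = m := by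
    rw [Finset.card_image_of_injective _ hg]; simp
  rw [← h1]
  apply Finset.card_le_card
  intro v hv
  rw [Finset.mem_image] at hv
  obtain ⟨j, -, rfl⟩ := hv
  exact (mem_nb A u _).2 (h j)

/-- a transitive tournament on `N` vertices, complete to a blow-up of the directed triangle with
classes of size `m` -/
def TT (N m : ℕ) (u v : Fin (N + 3 * m)) : Prop :=
  (u.val < N ∧ u.val < v.val) ∨
    (N ≤ u.val ∧ N ≤ v.val ∧ (v.val - N) % 3 = (u.val - N + 1) % 3)

lemma TT_irrefl (N m : ℕ) (v : Fin (N + 3 * m)) : ¬ TT N m v v := by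
  unfold TT
  omega

lemma TT_out (N m : ℕ) (u : Fin (N + 3 * m)) : m ≤ outDeg (TT N m) u := by
  by_cases hu : u.val < N
  · refine card_le_of_inj _ u (fun j : Fin m => ⟨N + 3 * j.val, by have := j.isLt; omega⟩) ?_ ?_
    · intro i j hij
      simp only [Fin.mk.injEq] at hij
      exact Fin.ext (by omega)
    · intro j
      left
      simp only
      omega
  · refine card_le_of_inj _ u (fun j : Fin m => ⟨N + 3 * j.val + (u.val - N + 1) % 3,
      by have := j.isLt; omega⟩) ?_ ?_
    · intro i j hij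
      simp only [Fin.mk.injEq] at hij
      exact Fin.ext (by omega)
    · intro j
      right
      simp only
      omega

lemma TT_chi (C m : ℕ) : ¬ ChiLE (TT (C + 1) m) C := by
  rintro ⟨c, hc⟩
  have hinj : Function.Injective (fun i : Fin (C + 1) =>
      c ⟨i.val, by have := i.isLt; omega⟩) := by
    intro i j hij
    by_contra hne
    rcases lt_or_gt_of_ne (fun e => hne (Fin.ext e) : i.val ≠ j.val) with h | h
    · exact hc _ _ (Or.inl ⟨i.isLt, h⟩) hij
    · exact hc _ _ (Or.inl ⟨j.isLt, h⟩) hij.symm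
  have := Fintype.card_le_of_injective _ hinj
  simp at this

lemma TT_free (N m : ℕ) {R : W → W → Prop} {i j k l : W} (h1 : R i j) (h2 : R j k) (h3 : R k l)
    (h4 : R l i) : ¬ Contains (TT N m) R := by
  rintro ⟨f, -, hf⟩
  have e1 := hf _ _ h1
  have e2 := hf _ _ h2
  have e3 := hf _ _ h3
  have e4 := hf _ _ h4
  unfold TT at e1 e2 e3 e4
  omega

/-- digraphs containing a directed 4-cycle have threshold at least `1/3` -/
lemma threshold_lower {R : W → W → Prop} {i j k l : W} (h1 : R i j) (h2 : R j k) (h3 : R k l)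
    (h4 : R l i) : 1 / 3 ≤ threshold R := by
  apply le_csInf
  · exact ⟨2, by norm_num, 0, fun n A h => chiLE_zero (good_two h) A 0⟩
  · rintro d ⟨hd, C, hC⟩
    by_contra hlt
    push Not at hlt
    obtain ⟨m, hm⟩ := exists_nat_ge (d * (C + 1) / (1 - 3 * d))
    have hpos : 0 < 1 - 3 * d := by linarith
    rw [div_le_iff₀ hpos] at hm
    apply TT_chi C m
    apply hC
    refine ⟨TT_irrefl _ _, TT_free _ _ h1 h2 h3 h4, ?_⟩
    intro v
    have e1 : (m : ℝ) ≤ outDeg (TT (C + 1) m) v := by exact_mod_cast TT_out _ _ v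
    push_cast
    nlinarith

/-- sufficient condition for threshold zero -/
lemma threshold_zero {R : W → W → Prop}
    (h : ∀ T : ℕ, 0 < T → ∃ C : ℕ, ∀ (n δ : ℕ) (A : Fin n → Fin n → Prop), (∀ v, ¬ A v v) →
      ¬ Contains A R → 4 * n ≤ T * δ → (∀ v, δ ≤ (nb A v).card) → ChiLE A C) :
    threshold R = 0 := by
  apply le_antisymm
  · apply le_of_forall_pos_le_add
    intro ε hε
    rw [zero_add]
    apply csInf_le
    · exact ⟨0, fun d hd => hd.1⟩
    · refine ⟨hε.le, ?_⟩
      obtain ⟨T, hT⟩ := exists_nat_ge (4 / ε)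
      obtain ⟨C, hC⟩ := h (T + 1) (Nat.succ_pos T)
      refine ⟨C, fun n A hG => hC n ⌈ε * n⌉₊ A hG.1 hG.2.1 ?_ ?_⟩
      · have h1 : 4 ≤ ε * T := by
          rw [div_le_iff₀ hε] at hT
          linarith
        have h2 : ε * n ≤ ⌈ε * n⌉₊ := Nat.le_ceil _
        have h3 : (0 : ℝ) ≤ n := Nat.cast_nonneg n
        have h4 : (4 * n : ℝ) ≤ (T + 1) * ⌈ε * n⌉₊ := by
          have h5 : (0 : ℝ) ≤ T := Nat.cast_nonneg T
          calc (4 * n : ℝ) ≤ (ε * T) * n := by nlinarith
            _ = T * (ε * n) := by ring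
            _ ≤ T * ⌈ε * n⌉₊ := mul_le_mul_of_nonneg_left h2 h5
            _ ≤ (T + 1) * ⌈ε * n⌉₊ := by
              have : (0 : ℝ) ≤ ⌈ε * n⌉₊ := Nat.cast_nonneg _
              nlinarith
        exact_mod_cast h4
      · intro v
        have h1 := hG.2.2 v
        rw [outDeg_eq] at h1
        exact Nat.ceil_le.2 h1
  · apply le_csInf
    · exact ⟨2, by norm_num, 0, fun n A h => chiLE_zero (good_two h) A 0⟩
    · exact fun d hd => hd.1

end Pool.Agent.Q110.OC
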