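import Mathlib
import Pool.Agent.Q110.OC.LemD
import Pool.Agent.Q110.OC.Thr
import Pool.Agent.Q110.OC.Fam

namespace Pool.Agent.Q110.OC

open Finset Classical

variable {V W : Type}

/-- an embedding of the vertex set of the 5-cycle with leaves -/
lemma embedr {r : ℕ} {I O : Finset V} (hI : I.card = r) (hO : O.card = r) (hd : Disjoint I O)
    (C : Fin 5 → V) (hC : Function.Injective C) (hCI : ∀ k, C k ∉ I) (hCO : ∀ k, C k ∉ O) :
    ∃ f : Fin 5 ⊕ (Fin r ⊕ Fin r) → V, Function.Injective f ∧ (∀ k, f (.inl k) = C k) ∧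
      (∀ i, f (.inr (.inl i)) ∈ I) ∧ (∀ j, f (.inr (.inr j)) ∈ O) := by
  have gI := (I.equivFinOfCardEq hI).symm
  have gO := (O.equivFinOfCardEq hO).symm
  refine ⟨Sum.elim C (Sum.elim (fun i => (gI i : V)) (fun j => (gO j : V))), ?_, ?_, ?_, ?_⟩
  · apply Function.Injective.sumElim hC
    · apply Function.Injective.sumElim
      · exact Subtype.val_injective.comp gI.injective
      · exact Subtype.val_injective.comp gO.injective
      · intro a b e
        exact Finset.disjoint_left.1 hd (gI a).2 (e ▸ (gO b).2)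
    · intro a b e
      rcases b with b | b
      · simp only [Sum.elim_inl] at e
        exact hCI a (e ▸ (gI b).2)
      · simp only [Sum.elim_inr] at e
        exact hCO a (e ▸ (gO b).2)
  · intro k
    rfl
  · intro i
    exact (gI i).2
  · intro j
    exact (gO j).2

lemma inj5' {w c d e f : V} (h : [w, c, d, e, f].Nodup) :
    Function.Injective ![w, c, d, e, f] := by
  have hof : [w, c, d, e, f] = List.ofFn ![w, c, d, e, f] := by
    simp [List.ofFn_succ]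
  rw [← List.nodup_ofFn, ← hof]
  exact h

lemma cases5 {P : V → Prop} {w c d e f : V} (h0 : P w) (h1 : P c) (h2 : P d) (h3 : P e)
    (h4 : P f) : ∀ k : Fin 5, P (![w, c, d, e, f] k) := by
  intro k
  fin_cases k
  · exact h0
  · exact h1
  · exact h2
  · exact h3
  · exact h4

lemma contains_H₁ {r : ℕ} (A : V → V → Prop) {I O : Finset V} (hI : I.card = r) (hO : O.card = r)
    (hd : Disjoint I O) (C : Fin 5 → V) (hC : Function.Injective C) (hCI : ∀ k, C k ∉ I)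
    (hCO : ∀ k, C k ∉ O) (h1 : ∀ v ∈ I, A (C 0) v) (h2 : ∀ v ∈ O, A (C 3) v) (h3 : A (C 0) (C 1))
    (h4 : A (C 1) (C 2)) (h5 : A (C 2) (C 3)) (h6 : A (C 3) (C 4)) (h7 : A (C 0) (C 4)) :
    Contains A (H₁ r) := by
  obtain ⟨f, hf, e1, e2, e3⟩ := embedr hI hO hd C hC hCI hCO
  refine ⟨f, hf, ?_⟩
  intro u v huv
  rcases u with u | u | u <;> rcases v with v | v | v <;>
    simp only [H₁, cyc₁, List.mem_cons, Prod.mk.injEq, List.not_mem_nil, or_false] at huv
  · rw [e1, e1]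
    rcases huv with ⟨rfl, rfl⟩ | ⟨rfl, rfl⟩ | ⟨rfl, rfl⟩ | ⟨rfl, rfl⟩ | ⟨rfl, rfl⟩
    · exact h3
    · exact h4
    · exact h5
    · exact h6
    · exact h7
  · rw [huv, e1]
    exact h1 _ (e2 _)
  · rw [huv, e1]
    exact h2 _ (e3 _)

lemma contains_H₂ {r : ℕ} (A : V → V → Prop) {I O : Finset V} (hI : I.card = r) (hO : O.card = r)
    (hd : Disjoint I O) (C : Fin 5 → V) (hC : Function.Injective C) (hCI : ∀ k, C k ∉ I)
    (hCO : ∀ k, C k ∉ O) (h1 : ∀ v ∈ I, A v (C 0)) (h2 : ∀ v ∈ O, A v (C 3)) (h3 : A (C 0) (C 1))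
    (h4 : A (C 1) (C 2)) (h5 : A (C 3) (C 2)) (h6 : A (C 3) (C 4)) (h7 : A (C 0) (C 4)) :
    Contains A (H₂ r) := by
  obtain ⟨f, hf, e1, e2, e3⟩ := embedr hI hO hd C hC hCI hCO
  refine ⟨f, hf, ?_⟩
  intro u v huv
  rcases u with u | u | u <;> rcases v with v | v | v <;>
    simp only [H₂, cyc₂, List.mem_cons, Prod.mk.injEq, List.not_mem_nil, or_false] at huv
  · rw [e1, e1]
    rcases huv with ⟨rfl, rfl⟩ | ⟨rfl, rfl⟩ | ⟨rfl, rfl⟩ | ⟨rfl, rfl⟩ | ⟨rfl, rfl⟩
    · exact h3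
    · exact h4
    · exact h5
    · exact h6
    · exact h7
  · rw [huv, e1]
    exact h1 _ (e2 _)
  · rw [huv, e1]
    exact h2 _ (e3 _)

/-- large digraphs without `H₁ r` with minimum out-degree at least `99/200` are bipartite -/
lemma upper_H₁ [Fintype V] (r : ℕ) (A : V → V → Prop) (hA : ∀ v, ¬ A v v)
    (hn : 2000 + 10 * r ≤ Fintype.card V)
    (h : ∀ v, 99 * Fintype.card V ≤ 200 * (nb A v).card) (hno : ¬ Contains A (H₁ r)) :
    ChiLE A 2 := by
  refine lemD A ((99 * Fintype.card V + 199) / 200) (by omega) (by omega)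
    (fun v => by have := h v; omega) ?_
  intro v0 v1 v2 v3 v4 a01 a12 a23 a34 a04 n20 n30 n31 n41 n42
  apply hno
  obtain ⟨F, hF⟩ : ∃ F, F = [v0, v1, v2, v3, v4].toFinset := ⟨_, rfl⟩
  have hFc : F.card ≤ 5 := by
    have := List.toFinset_card_le [v0, v1, v2, v3, v4]
    rw [hF]; simp only [List.length] at *; omega
  have hFmem : ∀ v, v ∉ F ↔ v ≠ v0 ∧ v ≠ v1 ∧ v ≠ v2 ∧ v ≠ v3 ∧ v ≠ v4 := by
    intro v; rw [hF]; simp
  have hX := Finset.le_card_sdiff F (nb A v0)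
  have hh0 := h v0
  obtain ⟨I, hIs, hI⟩ := Finset.exists_subset_card_eq (s := nb A v0 \ F) (n := r) (by omega)
  have hX2 := Finset.le_card_sdiff (F ∪ I) (nb A v3)
  have hX3 := Finset.card_union_le F I
  have hh3 := h v3
  obtain ⟨O, hOs, hO⟩ := Finset.exists_subset_card_eq (s := nb A v3 \ (F ∪ I)) (n := r) (by omega)
  have hImem : ∀ v ∈ I, A v0 v ∧ v ∉ F := by
    intro v hv
    have := hIs hv
    simpa [mem_nb] using this
  have hOmem : ∀ v ∈ O, A v3 v ∧ v ∉ F ∧ v ∉ I := by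
    intro v hv
    have := hOs hv
    simpa [mem_nb] using this
  refine contains_H₁ A hI hO ?_ ![v0, v1, v2, v3, v4] (inj5' ?_)
    (cases5 (P := fun v => v ∉ I) ?_ ?_ ?_ ?_ ?_)
    (cases5 (P := fun v => v ∉ O) ?_ ?_ ?_ ?_ ?_)
    (fun v hv => (hImem v hv).1) (fun v hv => (hOmem v hv).1) a01 a12 a23 a34 a04
  · rw [Finset.disjoint_left]
    intro v hv hv'
    exact (hOmem v hv').2.2 hv
  · simp only [List.nodup_cons, List.mem_cons, List.not_mem_nil, or_false, not_or,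
      not_false_eq_true, List.nodup_nil, and_true]
    exact ⟨⟨fun e => hA v1 (e ▸ a01), fun e => n20 e.symm, fun e => n30 e.symm,
      fun e => hA v4 (e ▸ a04)⟩, ⟨fun e => hA v2 (e ▸ a12), fun e => n31 e.symm,
      fun e => n41 e.symm⟩, ⟨fun e => hA v3 (e ▸ a23), fun e => n42 e.symm⟩,
      fun e => hA v4 (e ▸ a34)⟩
  · exact fun hv => ((hFmem v0).1 (hImem v0 hv).2).1 rfl
  · exact fun hv => ((hFmem v1).1 (hImem v1 hv).2).2.1 rfl
  · exact fun hv => ((hFmem v2).1 (hImem v2 hv).2).2.2.1 rfl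
  · exact fun hv => ((hFmem v3).1 (hImem v3 hv).2).2.2.2.1 rfl
  · exact fun hv => ((hFmem v4).1 (hImem v4 hv).2).2.2.2.2 rfl
  · exact fun hv => ((hFmem v0).1 (hOmem v0 hv).2.1).1 rfl
  · exact fun hv => ((hFmem v1).1 (hOmem v1 hv).2.1).2.1 rfl
  · exact fun hv => ((hFmem v2).1 (hOmem v2 hv).2.1).2.2.1 rfl
  · exact fun hv => ((hFmem v3).1 (hOmem v3 hv).2.1).2.2.2.1 rfl
  · exact fun hv => ((hFmem v4).1 (hOmem v4 hv).2.1).2.2.2.2 rfl

lemma profile_H₁ (r k : ℕ) (hk : 2 ≤ k) : profile (H₁ r) k ≤ 99 / 200 := by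
  apply csInf_le
  · exact ⟨0, fun d hd => hd.1⟩
  · refine ⟨by norm_num, 2000 + 10 * r, ?_⟩
    intro n hn A hG
    apply ChiLE.mono _ hk
    apply upper_H₁ r A hG.1 (by simpa using hn)
    · intro v
      have h1 := hG.2.2 v
      rw [outDeg_eq] at h1
      have h2 : (99 * n : ℝ) ≤ 200 * (nb A v).card := by linarith
      simp only [Fintype.card_fin]
      exact_mod_cast h2
    · exact hG.2.1

end Pool.Agent.Q110.OC
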