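import Mathlib
import Pool.Agent.Q110.OC.FamUp

namespace Pool.Agent.Q110.OC

open Finset Classical

variable {V W : Type}

/-- no `C_5'''` whose sources have large in-degree -/
lemma no_H₂ [Fintype V] (r : ℕ) (A : V → V → Prop) (hA : ∀ v, ¬ A v v)
    (hno : ¬ Contains A (H₂ r)) (y z x : V) (hyz : A y z)
    (hxy : x ≠ y) (hxz : x ≠ z) (hiy : 2 * r + 5 ≤ (Finset.univ.filter (fun v => A v y)).card)
    (hix : 2 * r + 5 ≤ (Finset.univ.filter (fun v => A v x)).card)
    (hs1 : 3 ≤ (nb A x ∩ nb A y).card) (hs2 : 3 ≤ (nb A x ∩ nb A z).card) : False := by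
  apply hno
  obtain ⟨a, ha, haF⟩ := exists_avoid (X := nb A x ∩ nb A y) (F := {z})
    (by simp only [Finset.card_singleton]; omega)
  rw [Finset.mem_inter, mem_nb, mem_nb] at ha
  rw [Finset.mem_singleton] at haF
  obtain ⟨b, hb, hbF⟩ := exists_avoid (X := nb A x ∩ nb A z) (F := {y, a})
    (by have := Finset.card_le_two (a := y) (b := a); omega)
  rw [Finset.mem_inter, mem_nb, mem_nb] at hb
  simp only [Finset.mem_insert, Finset.mem_singleton, not_or] at hbF
  obtain ⟨F, hF⟩ : ∃ F, F = [y, z, b, x, a].toFinset := ⟨_, rfl⟩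
  have hFc : F.card ≤ 5 := by
    have := List.toFinset_card_le [y, z, b, x, a]
    rw [hF]; simp only [List.length] at *; omega
  have hFmem : ∀ v, v ∉ F ↔ v ≠ y ∧ v ≠ z ∧ v ≠ b ∧ v ≠ x ∧ v ≠ a := by
    intro v; rw [hF]; simp
  have hX := Finset.le_card_sdiff F (Finset.univ.filter (fun v => A v y))
  obtain ⟨I, hIs, hI⟩ := Finset.exists_subset_card_eq
    (s := Finset.univ.filter (fun v => A v y) \ F) (n := r) (by omega)
  have hX2 := Finset.le_card_sdiff (F ∪ I) (Finset.univ.filter (fun v => A v x))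
  have hX3 := Finset.card_union_le F I
  obtain ⟨O, hOs, hO⟩ := Finset.exists_subset_card_eq
    (s := Finset.univ.filter (fun v => A v x) \ (F ∪ I)) (n := r) (by omega)
  have hImem : ∀ v ∈ I, A v y ∧ v ∉ F := by
    intro v hv
    have := hIs hv
    simpa using this
  have hOmem : ∀ v ∈ O, A v x ∧ v ∉ F ∧ v ∉ I := by
    intro v hv
    have := hOs hv
    simpa using this
  refine contains_H₂ A hI hO ?_ ![y, z, b, x, a] (inj5' ?_)
    (cases5 (P := fun v => v ∉ I) ?_ ?_ ?_ ?_ ?_)
    (cases5 (P := fun v => v ∉ O) ?_ ?_ ?_ ?_ ?_)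
    (fun v hv => (hImem v hv).1) (fun v hv => (hOmem v hv).1) hyz hb.2 hb.1 ha.1 ha.2
  · rw [Finset.disjoint_left]
    intro v hv hv'
    exact (hOmem v hv').2.2 hv
  · simp only [List.nodup_cons, List.mem_cons, List.not_mem_nil, or_false, not_or,
      not_false_eq_true, List.nodup_nil, and_true]
    exact ⟨⟨fun e => hA z (e ▸ hyz), fun e => hbF.1 e.symm, fun e => hxy e.symm,
      fun e => hA a (e ▸ ha.2)⟩, ⟨fun e => hA b (e ▸ hb.2), fun e => hxz e.symm,
      fun e => haF e.symm⟩, ⟨fun e => hA b (e.symm ▸ hb.1), hbF.2⟩,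
      fun e => hA a (e ▸ ha.1)⟩
  · exact fun hv => ((hFmem y).1 (hImem y hv).2).1 rfl
  · exact fun hv => ((hFmem z).1 (hImem z hv).2).2.1 rfl
  · exact fun hv => ((hFmem b).1 (hImem b hv).2).2.2.1 rfl
  · exact fun hv => ((hFmem x).1 (hImem x hv).2).2.2.2.1 rfl
  · exact fun hv => ((hFmem a).1 (hImem a hv).2).2.2.2.2 rfl
  · exact fun hv => ((hFmem y).1 (hOmem y hv).2.1).1 rfl
  · exact fun hv => ((hFmem z).1 (hOmem z hv).2.1).2.1 rfl
  · exact fun hv => ((hFmem b).1 (hOmem b hv).2.1).2.2.1 rfl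
  · exact fun hv => ((hFmem x).1 (hOmem x hv).2.1).2.2.2.1 rfl
  · exact fun hv => ((hFmem a).1 (hOmem a hv).2.1).2.2.2.2 rfl

/-- vertices of in-degree at most `s` -/
lemma low_colr [Fintype V] (s : ℕ) (A : V → V → Prop) (hA : ∀ v, ¬ A v v) (S : Finset V)
    (h : ∀ v ∈ S, (Finset.univ.filter (fun w => A w v)).card ≤ s) : ColOn A S (2 * s + 1) := by
  apply colOn_degenerate A hA
  intro W hW hWne
  by_contra hcon
  push Not at hcon
  have h1 : ∀ v ∈ W, s + 1 ≤ (W.filter (fun w => A v w)).card := by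
    intro v hv
    have e1 := hcon v hv
    have e2 : (W.filter (fun w => A v w ∨ A w v)).card ≤
        (W.filter (fun w => A v w)).card + (W.filter (fun w => A w v)).card := by
      rw [Finset.filter_or]
      exact Finset.card_union_le _ _
    have e3 : (W.filter (fun w => A w v)).card ≤ (Finset.univ.filter (fun w => A w v)).card :=
      Finset.card_le_card (Finset.filter_subset_filter _ (Finset.subset_univ _))
    have e4 := h v (hW hv)
    omega
  obtain ⟨u, hu, huc⟩ := exists_large_in A W W hWne (s + 1) (s + 1) h1 le_rfl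
  have e3 : (W.filter (fun w => A w u)).card ≤ (Finset.univ.filter (fun w => A w u)).card :=
    Finset.card_le_card (Finset.filter_subset_filter _ (Finset.subset_univ _))
  have e4 := h u (hW hu)
  omega

lemma col_boundr [Fintype V] (r : ℕ) (A : V → V → Prop) (hA : ∀ v, ¬ A v v) (δ T : ℕ)
    (hT' : 4 * Fintype.card V ≤ T * δ) (hn' : 100 * T ^ 2 + 100 ≤ Fintype.card V)
    (h : ∀ v, δ ≤ (nb A v).card) (hno : ¬ Contains A (H₂ r)) :
    ColOn A Finset.univ (2 * (2 * r + 4) + 1 + T * 2) := by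
  obtain ⟨Y, hY⟩ : ∃ Y : Finset V, Y = Finset.univ.filter
      (fun v => 2 * r + 5 ≤ (Finset.univ.filter (fun w => A w v)).card) := ⟨_, rfl⟩
  have hYmem : ∀ v, v ∈ Y ↔ 2 * r + 5 ≤ (Finset.univ.filter (fun w => A w v)).card := by
    intro v; rw [hY]; simp
  -- a maximal family of pairwise dissimilar vertices
  obtain ⟨P, hP⟩ : ∃ P : Finset (Finset V), P = Y.powerset.filter
    (fun F => ∀ u ∈ F, ∀ v ∈ F, u ≠ v → (nb A u ∩ nb A v).card ≤ 2) := ⟨_, rfl⟩
  have hPne : P.Nonempty := ⟨∅, by rw [hP]; simp⟩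
  obtain ⟨F, hFP, hFmax⟩ := Finset.exists_max_image P Finset.card hPne
  rw [hP, Finset.mem_filter, Finset.mem_powerset] at hFP
  have hFc : F.card ≤ T := by
    by_contra hbig
    push Not at hbig
    obtain ⟨u, hu, v, hv, huv, hc⟩ := exists_common A δ T hT' hn' h ∅ (by simp) F hbig.le
    have := hFP.2 u hu v hv huv
    simp only [Finset.sdiff_empty] at hc
    omega
  have hcov : ∀ v ∈ Y, v ∉ F → ∃ x ∈ F, 3 ≤ (nb A x ∩ nb A v).card := by
    intro v hv hvF
    by_contra hcon
    push Not at hcon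
    have hmem : insert v F ∈ P := by
      rw [hP, Finset.mem_filter, Finset.mem_powerset]
      refine ⟨Finset.insert_subset hv hFP.1, ?_⟩
      intro u hu w hw huw
      rw [Finset.mem_insert] at hu hw
      rcases hu with rfl | hu
      · rcases hw with rfl | hw
        · exact absurd rfl huw
        · have := hcon w hw
          rw [Finset.inter_comm]
          omega
      · rcases hw with rfl | hw
        · have := hcon u hu
          omega
        · exact hFP.2 u hu w hw huw
    have := hFmax _ hmem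
    rw [Finset.card_insert_of_notMem hvF] at this
    omega
  have hcl : ∀ x ∈ F, ColOn A ({x} ∪ Y.filter (fun v => v ≠ x ∧ 3 ≤ (nb A x ∩ nb A v).card)) 2 := by
    intro x hx
    apply ColOn.union (k := 1) (k' := 1)
    · apply colOn_indep
      intro u hu v hv
      rw [Finset.mem_singleton] at hu hv
      rw [hu, hv]
      exact hA x
    · apply colOn_indep
      intro u hu v hv huv
      rw [Finset.mem_filter] at hu hv
      exact no_H₂ r A hA hno u v x huv (fun e => hu.2.1 e.symm)
        (fun e => hv.2.1 e.symm) ((hYmem u).1 hu.1) ((hYmem x).1 (hFP.1 hx)) hu.2.2 hv.2.2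
  have hall := (low_colr (2 * r + 4) A hA (Finset.univ \ Y) (by
    intro v hv
    rw [Finset.mem_sdiff, hYmem] at hv
    omega)).union (colOn_biUnion F _ 2 hcl)
  apply hall.mono
  · intro v _
    rw [Finset.mem_union]
    by_cases hvY : v ∈ Y
    · right
      rw [Finset.mem_biUnion]
      by_cases hvF : v ∈ F
      · exact ⟨v, hvF, by simp⟩
      · obtain ⟨x, hx, hxc⟩ := hcov v hvY hvF
        refine ⟨x, hx, ?_⟩
        rw [Finset.mem_union, Finset.mem_filter]
        exact Or.inr ⟨hvY, fun e => hvF (e ▸ hx), hxc⟩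
    · left
      simp [hvY]
  · have : F.card * 2 ≤ T * 2 := Nat.mul_le_mul_right _ hFc
    omega

lemma threshold_H₂ (r : ℕ) : threshold (H₂ r) = 0 := by
  apply threshold_zero
  intro T hTpos
  refine ⟨max (100 * T ^ 2 + 100) (2 * (2 * r + 4) + 1 + T * 2), ?_⟩
  intro n δ A hA hno hT h
  by_cases hn : 100 * T ^ 2 + 100 ≤ n
  swap
  · exact (chiLE_self hA).mono (le_trans (by omega) (le_max_left _ _))
  apply ChiLE.mono _ (le_max_right _ _)
  apply ChiLE.of_colOn
  exact col_boundr r A hA δ T (by simpa using hT) (by simpa using hn) h hno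

/-- a transitive tournament on `r` vertices joined to a bidirected complete bipartite graph -/
def SBr (r m : ℕ) (u v : Fin (r + 2 * m)) : Prop :=
  (u.val < r ∧ u.val < v.val) ∨ (r ≤ u.val ∧ r ≤ v.val ∧ (u.val + v.val) % 2 = 1)

lemma SBr_irrefl (r m : ℕ) (v : Fin (r + 2 * m)) : ¬ SBr r m v v := by
  unfold SBr
  omega

lemma SBr_out (r m : ℕ) (u : Fin (r + 2 * m)) : m ≤ outDeg (SBr r m) u := by
  refine card_le_of_inj _ u (fun j : Fin m => ⟨r + 2 * j.val + (u.val + r + 1) % 2,
    by have := j.isLt; omega⟩) ?_ ?_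
  · intro i j hij
    simp only [Fin.mk.injEq] at hij
    exact Fin.ext (by omega)
  · intro j
    unfold SBr
    simp only
    omega

lemma SBr_chi (r m : ℕ) (hm : 1 ≤ m) : ¬ ChiLE (SBr r m) (r + 1) := by
  rintro ⟨c, hc⟩
  have hinj : Function.Injective (fun i : Fin (r + 2) =>
      c ⟨i.val, by have := i.isLt; omega⟩) := by
    intro i j hij
    by_contra hne
    have hi := i.isLt
    have hj := j.isLt
    rcases lt_or_gt_of_ne (fun e => hne (Fin.ext e) : i.val ≠ j.val) with h | h
    · refine hc _ _ ?_ hij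
      unfold SBr
      simp only
      omega
    · refine hc _ _ ?_ hij.symm
      unfold SBr
      simp only
      omega
  have := Fintype.card_le_of_injective _ hinj
  simp at this

lemma SBr_free (r m : ℕ) : ¬ Contains (SBr r m) (H₂ r) := by
  rintro ⟨f, hfi, hf⟩
  have e1 := hf (.inl 0) (.inl 1) (by change ((0 : Fin 5), (1 : Fin 5)) ∈ cyc₂; simp [cyc₂])
  have e2 := hf (.inl 1) (.inl 2) (by change ((1 : Fin 5), (2 : Fin 5)) ∈ cyc₂; simp [cyc₂])
  have e3 := hf (.inl 3) (.inl 2) (by change ((3 : Fin 5), (2 : Fin 5)) ∈ cyc₂; simp [cyc₂])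
  have e4 := hf (.inl 3) (.inl 4) (by change ((3 : Fin 5), (4 : Fin 5)) ∈ cyc₂; simp [cyc₂])
  have e5 := hf (.inl 0) (.inl 4) (by change ((0 : Fin 5), (4 : Fin 5)) ∈ cyc₂; simp [cyc₂])
  -- a vertex with `r` in-neighbours is in the bipartite part
  have key : ∀ (w : Fin (r + 2 * m)) (g : Fin r → Fin (r + 2 * m)), Function.Injective g →
      (∀ i, SBr r m (g i) w) → r ≤ w.val := by
    intro w g hg hw
    by_contra hlt
    push Not at hlt
    have hinj : Function.Injective (fun i : Fin r => (⟨(g i).val, by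
        rcases hw i with h | h
        · exact h.2
        · omega⟩ : Fin w.val)) := by
      intro i j hij
      simp only [Fin.mk.injEq] at hij
      exact hg (Fin.ext hij)
    have := Fintype.card_le_of_injective _ hinj
    simp at this
    omega
  have k1 := key (f (.inl 0)) (fun i => f (.inr (.inl i)))
    (fun i j hij => by simpa using hfi hij) (fun i => hf _ _ (by change (0 : Fin 5) = 0; rfl))
  have k2 := key (f (.inl 3)) (fun i => f (.inr (.inr i)))
    (fun i j hij => by simpa using hfi hij) (fun i => hf _ _ (by change (3 : Fin 5) = 3; rfl))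
  unfold SBr at e1 e2 e3 e4 e5
  omega

lemma profile_H₂ (r : ℕ) : 1 / 2 ≤ profile (H₂ r) (r + 1) := by
  apply le_csInf
  · exact ⟨2, by norm_num, 0, fun n _ A h => chiLE_zero (good_two h) A (r + 1)⟩
  · rintro d ⟨hd, n₀, hn₀⟩
    by_contra hlt
    push Not at hlt
    obtain ⟨m, hm⟩ := exists_nat_ge (d * r / (1 - 2 * d))
    have hpos : 0 < 1 - 2 * d := by linarith
    rw [div_le_iff₀ hpos] at hm
    apply SBr_chi r (m + n₀ + 1) (by omega)
    apply hn₀ _ (by omega)
    refine ⟨SBr_irrefl _ _, SBr_free _ _, ?_⟩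
    intro v
    have e1 : ((m + n₀ + 1 : ℕ) : ℝ) ≤ outDeg (SBr r (m + n₀ + 1)) v := by
      exact_mod_cast SBr_out _ _ v
    push_cast at e1 ⊢
    have e2 : (0 : ℝ) ≤ n₀ := Nat.cast_nonneg _
    nlinarith

end Pool.Agent.Q110.OC
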