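import Mathlib
import Pool.Agent.Q110.OC.Defs

/-!
The second graph: a star with centre `inr (inr 0)` and twelve leaves `inl i`, `inr (inl j)`, a
4-cycle with vertices `inr (inr k)`, `1 ≤ k ≤ 4`, and the edge from the centre to `inr (inr 1)`.
-/

namespace Pool.Agent.Q110.OC

/-- First orientation: four in-leaves, eight out-leaves, a directed 4-cycle, and the arc from the
centre to the cycle. -/
def b₃ : Fin 4 ⊕ Fin 8 ⊕ Fin 5 → Fin 4 ⊕ Fin 8 ⊕ Fin 5 → Bool
  | .inl _, .inr (.inr c) => c = 0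
  | .inr (.inr c), .inr (.inl _) => c = 0
  | .inr (.inr a), .inr (.inr b) =>
      (a, b) ∈ [((0 : Fin 5), (1 : Fin 5)), (1, 2), (2, 3), (3, 4), (4, 1)]
  | _, _ => false

/-- Second orientation: twelve in-leaves, a 4-cycle whose orientation alternates, and the arc from
the cycle to the centre. -/
def b₄ : Fin 4 ⊕ Fin 8 ⊕ Fin 5 → Fin 4 ⊕ Fin 8 ⊕ Fin 5 → Bool
  | .inl _, .inr (.inr c) => c = 0
  | .inr (.inl _), .inr (.inr c) => c = 0
  | .inr (.inr a), .inr (.inr b) =>
      (a, b) ∈ [((1 : Fin 5), (0 : Fin 5)), (1, 2), (3, 2), (3, 4), (1, 4)]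
  | _, _ => false

/-- the first orientation -/
def R₃ (u v : Fin 4 ⊕ Fin 8 ⊕ Fin 5) : Prop := b₃ u v = true

/-- the second orientation -/
def R₄ (u v : Fin 4 ⊕ Fin 8 ⊕ Fin 5) : Prop := b₄ u v = true

instance : DecidableRel R₃ := fun u v => inferInstanceAs (Decidable (b₃ u v = true))
instance : DecidableRel R₄ := fun u v => inferInstanceAs (Decidable (b₄ u v = true))

/-- the underlying graph -/
def Star : SimpleGraph (Fin 4 ⊕ Fin 8 ⊕ Fin 5) where
  Adj u v := R₃ u v ∨ R₃ v u
  symm := ⟨fun _ _ h => Or.symm h⟩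
  loopless := ⟨by decide⟩

lemma orient₃ : IsOrientation Star R₃ := by
  constructor
  · intro u v h
    exact Or.inl h
  · change ∀ u v, (R₃ u v ∨ R₃ v u) → (R₃ u v ∧ ¬ R₃ v u) ∨ (R₃ v u ∧ ¬ R₃ u v)
    decide

lemma orient₄ : IsOrientation Star R₄ := by
  constructor
  · change ∀ u v, R₄ u v → (R₃ u v ∨ R₃ v u)
    decide
  · change ∀ u v, (R₃ u v ∨ R₃ v u) → (R₄ u v ∧ ¬ R₄ v u) ∨ (R₄ v u ∧ ¬ R₄ u v)
    decide

lemma connected_Star : Star.Connected := by
  rw [SimpleGraph.connected_iff_exists_forall_reachable]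
  have h01 : Star.Reachable (.inr (.inr 0)) (.inr (.inr 1)) :=
    SimpleGraph.Adj.reachable (Or.inl (by change b₃ _ _ = true; decide))
  have h12 : Star.Reachable (.inr (.inr 1)) (.inr (.inr 2)) :=
    SimpleGraph.Adj.reachable (Or.inl (by change b₃ _ _ = true; decide))
  have h23 : Star.Reachable (.inr (.inr 2)) (.inr (.inr 3)) :=
    SimpleGraph.Adj.reachable (Or.inl (by change b₃ _ _ = true; decide))
  have h34 : Star.Reachable (.inr (.inr 3)) (.inr (.inr 4)) :=
    SimpleGraph.Adj.reachable (Or.inl (by change b₃ _ _ = true; decide))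
  refine ⟨.inr (.inr 0), ?_⟩
  rintro (a | a | a)
  · exact SimpleGraph.Adj.reachable (Or.inr (by change b₃ _ _ = true; simp [b₃]))
  · exact SimpleGraph.Adj.reachable (Or.inl (by change b₃ _ _ = true; simp [b₃]))
  · fin_cases a
    · exact SimpleGraph.Reachable.refl _
    · exact h01
    · exact h01.trans h12
    · exact (h01.trans h12).trans h23
    · exact ((h01.trans h12).trans h23).trans h34

end Pool.Agent.Q110.OC
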