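import Mathlib
import Pool.Agent.Q110.OC.FamUp
import Pool.Agent.Q110.OC.Star

namespace Pool.Agent.Q110.OC

open Finset Classical

variable {V W : Type}

/-- an embedding of the vertex set of the star with a 4-cycle -/
lemma embed {I O : Finset V} (hI : I.card = 4) (hO : O.card = 8) (hd : Disjoint I O)
    (C : Fin 5 → V) (hC : Function.Injective C) (hCI : ∀ k, C k ∉ I) (hCO : ∀ k, C k ∉ O) :
    ∃ f : Fin 4 ⊕ Fin 8 ⊕ Fin 5 → V, Function.Injective f ∧ (∀ i, f (.inl i) ∈ I) ∧
      (∀ j, f (.inr (.inl j)) ∈ O) ∧ ∀ k, f (.inr (.inr k)) = C k := by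
  have gI := (I.equivFinOfCardEq hI).symm
  have gO := (O.equivFinOfCardEq hO).symm
  refine ⟨Sum.elim (fun i => (gI i : V)) (Sum.elim (fun j => (gO j : V)) C), ?_, ?_, ?_, ?_⟩
  · apply Function.Injective.sumElim
    · exact Subtype.val_injective.comp gI.injective
    · apply Function.Injective.sumElim
      · exact Subtype.val_injective.comp gO.injective
      · exact hC
      · intro a b e
        exact hCO b (e ▸ (gO a).2)
    · intro a b e
      rcases b with b | b
      · simp only [Sum.elim_inl] at e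
        exact Finset.disjoint_left.1 hd (gI a).2 (e ▸ (gO b).2)
      · simp only [Sum.elim_inr] at e
        exact hCI b (e ▸ (gI a).2)
  · intro i
    exact (gI i).2
  · intro j
    exact (gO j).2
  · intro k
    rfl

lemma contains₃ (A : V → V → Prop) {I O : Finset V} (hI : I.card = 4) (hO : O.card = 8)
    (hd : Disjoint I O) (C : Fin 5 → V) (hC : Function.Injective C) (hCI : ∀ k, C k ∉ I)
    (hCO : ∀ k, C k ∉ O) (h1 : ∀ v ∈ I, A v (C 0)) (h2 : ∀ v ∈ O, A (C 0) v)
    (h0 : A (C 0) (C 1)) (h3 : A (C 1) (C 2))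
    (h4 : A (C 2) (C 3)) (h5 : A (C 3) (C 4)) (h6 : A (C 4) (C 1)) : Contains A R₃ := by
  obtain ⟨f, hf, e1, e2, e3⟩ := embed hI hO hd C hC hCI hCO
  refine ⟨f, hf, ?_⟩
  intro u v huv
  rcases u with u | u | u <;> rcases v with v | v | v <;>
    simp only [R₃, b₃, List.mem_cons, Prod.mk.injEq, List.not_mem_nil, or_false,
      decide_eq_true_eq, Bool.false_eq_true] at huv
  · rw [huv, e3]
    exact h1 _ (e1 _)
  · rw [huv, e3]
    exact h2 _ (e2 _)
  · rw [e3, e3]
    rcases huv with ⟨rfl, rfl⟩ | ⟨rfl, rfl⟩ | ⟨rfl, rfl⟩ | ⟨rfl, rfl⟩ | ⟨rfl, rfl⟩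
    · exact h0
    · exact h3
    · exact h4
    · exact h5
    · exact h6

lemma contains₄ (A : V → V → Prop) {I O : Finset V} (hI : I.card = 4) (hO : O.card = 8)
    (hd : Disjoint I O) (C : Fin 5 → V) (hC : Function.Injective C) (hCI : ∀ k, C k ∉ I)
    (hCO : ∀ k, C k ∉ O) (h1 : ∀ v ∈ I, A v (C 0)) (h2 : ∀ v ∈ O, A v (C 0))
    (h0 : A (C 1) (C 0)) (h3 : A (C 1) (C 2))
    (h4 : A (C 3) (C 2)) (h5 : A (C 3) (C 4)) (h6 : A (C 1) (C 4)) : Contains A R₄ := by
  obtain ⟨f, hf, e1, e2, e3⟩ := embed hI hO hd C hC hCI hCO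
  refine ⟨f, hf, ?_⟩
  intro u v huv
  rcases u with u | u | u <;> rcases v with v | v | v <;>
    simp only [R₄, b₄, List.mem_cons, Prod.mk.injEq, List.not_mem_nil, or_false,
      decide_eq_true_eq, Bool.false_eq_true] at huv
  · rw [huv, e3]
    exact h1 _ (e1 _)
  · rw [huv, e3]
    exact h2 _ (e2 _)
  · rw [e3, e3]
    rcases huv with ⟨rfl, rfl⟩ | ⟨rfl, rfl⟩ | ⟨rfl, rfl⟩ | ⟨rfl, rfl⟩ | ⟨rfl, rfl⟩
    · exact h0
    · exact h3
    · exact h4
    · exact h5
    · exact h6

/-- large digraphs contain `R₄` -/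
lemma large₄ [Fintype V] (A : V → V → Prop) (hA : ∀ v, ¬ A v v) (δ T : ℕ)
    (hT : 4 * Fintype.card V ≤ T * δ) (hn : 100 * T ^ 2 + 100 ≤ Fintype.card V)
    (h : ∀ v, δ ≤ (nb A v).card) : Contains A R₄ := by
  have hδ : 400 * T ≤ δ := by
    by_contra hc
    push Not at hc
    have h1 : T * δ ≤ T * (400 * T) := Nat.mul_le_mul_left _ (by omega)
    nlinarith
  have hTpos : 0 < T := by
    by_contra hc
    have : T = 0 := by omega
    subst this
    omega
  have hne : (Finset.univ : Finset V).Nonempty := by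
    apply Finset.card_pos.1
    have h2 : (Finset.univ : Finset V).card = Fintype.card V := rfl
    omega
  obtain ⟨w, -, hw⟩ := exists_large_in A Finset.univ Finset.univ hne δ δ (fun v _ => h v) le_rfl
  obtain ⟨c, hc, e, he, hce, hcard⟩ := exists_common A δ T hT hn h {w} (by simp)
    (Finset.univ.filter (fun a => A a w)) (by omega)
  obtain ⟨d, hd, -⟩ := exists_avoid (X := (nb A c \ {w}) ∩ (nb A e \ {w})) (F := ∅)
    (by simp only [Finset.card_empty]; omega)
  obtain ⟨f, hf, hfd⟩ := exists_avoid (X := (nb A c \ {w}) ∩ (nb A e \ {w})) (F := {d})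
    (by simp only [Finset.card_singleton]; omega)
  simp only [Finset.mem_inter, Finset.mem_sdiff, mem_nb, Finset.mem_univ, true_and,
    Finset.mem_singleton, Finset.mem_filter] at hc he hd hf hfd
  obtain ⟨F, hF⟩ : ∃ F, F = [c, d, e, f].toFinset := ⟨_, rfl⟩
  have hFc : F.card ≤ 4 := by
    have := List.toFinset_card_le [c, d, e, f]
    rw [hF]; simp only [List.length] at *; omega
  have hX := Finset.le_card_sdiff F (Finset.univ.filter (fun a => A a w))
  obtain ⟨I, hIs, hI⟩ := Finset.exists_subset_card_eq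
    (s := Finset.univ.filter (fun a => A a w) \ F) (n := 4) (by omega)
  have hX2 := Finset.le_card_sdiff I (Finset.univ.filter (fun a => A a w) \ F)
  obtain ⟨O, hOs, hO⟩ := Finset.exists_subset_card_eq
    (s := (Finset.univ.filter (fun a => A a w) \ F) \ I) (n := 8) (by omega)
  have hImem : ∀ v ∈ I, A v w ∧ v ∉ F := by
    intro v hv
    have := hIs hv
    simpa using this
  have hOmem : ∀ v ∈ O, (A v w ∧ v ∉ F) ∧ v ∉ I := by
    intro v hv
    have := hOs hv
    simpa using this
  have hFmem : ∀ v, v ∉ F ↔ v ≠ c ∧ v ≠ d ∧ v ≠ e ∧ v ≠ f := by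
    intro v; rw [hF]; simp
  refine contains₄ A hI hO ?_ ![w, c, d, e, f] (inj5' ?_)
    (cases5 (P := fun v => v ∉ I) ?_ ?_ ?_ ?_ ?_)
    (cases5 (P := fun v => v ∉ O) ?_ ?_ ?_ ?_ ?_)
    (fun v hv => (hImem v hv).1) (fun v hv => (hOmem v hv).1.1) hc hd.1.1 hd.2.1 hf.2.1 hf.1.1
  · rw [Finset.disjoint_left]
    intro v hv hv'
    exact (hOmem v hv').2 hv
  · simp only [List.nodup_cons, List.mem_cons, List.not_mem_nil, or_false, not_or,
      not_false_eq_true, List.nodup_nil, and_true]
    exact ⟨⟨fun e' => hA w (e'.symm ▸ hc), fun e' => hd.1.2 e'.symm, fun e' => hA w (e'.symm ▸ he),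
      fun e' => hf.1.2 e'.symm⟩, ⟨fun e' => hA d (e' ▸ hd.1.1), hce, fun e' => hA f (e' ▸ hf.1.1)⟩,
      ⟨fun e' => hA d (e'.symm ▸ hd.2.1), fun e' => hfd e'.symm⟩, fun e' => hA f (e' ▸ hf.2.1)⟩
  · exact fun hv => hA w (hImem w hv).1
  · exact fun hv => ((hFmem c).1 (hImem c hv).2).1 rfl
  · exact fun hv => ((hFmem d).1 (hImem d hv).2).2.1 rfl
  · exact fun hv => ((hFmem e).1 (hImem e hv).2).2.2.1 rfl
  · exact fun hv => ((hFmem f).1 (hImem f hv).2).2.2.2 rfl
  · exact fun hv => hA w (hOmem w hv).1.1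
  · exact fun hv => ((hFmem c).1 (hOmem c hv).1.2).1 rfl
  · exact fun hv => ((hFmem d).1 (hOmem d hv).1.2).2.1 rfl
  · exact fun hv => ((hFmem e).1 (hOmem e hv).1.2).2.2.1 rfl
  · exact fun hv => ((hFmem f).1 (hOmem f hv).1.2).2.2.2 rfl

lemma threshold₄ : threshold R₄ = 0 := by
  apply threshold_zero
  intro T hTpos
  refine ⟨100 * T ^ 2 + 100, ?_⟩
  intro n δ A hA hno hT h
  by_cases hn : 100 * T ^ 2 + 100 ≤ n
  · exact absurd (large₄ A hA δ T (by simpa using hT) (by simpa using hn) h) hno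
  · exact (chiLE_self hA).mono (by omega)

lemma threshold₃ : 1 / 3 ≤ threshold R₃ :=
  threshold_lower (i := .inr (.inr 1)) (j := .inr (.inr 2)) (k := .inr (.inr 3))
    (l := .inr (.inr 4)) (by decide) (by decide) (by decide) (by decide)

/-- the upper bound for all digraphs -/
lemma upper₃ [Fintype V] (A : V → V → Prop) (hA : ∀ v, ¬ A v v)
    (h : ∀ v, 23 * Fintype.card V ≤ 34 * (nb A v).card) (hno : ¬ Contains A R₃) :
    ColOn A Finset.univ 16 := by
  apply colOn_degenerate A hA
  intro W _ hWne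
  by_contra hcon
  push Not at hcon
  apply hno
  obtain ⟨n, hnn⟩ : ∃ n, n = Fintype.card V := ⟨_, rfl⟩
  rw [← hnn] at h
  have huniv : (Finset.univ : Finset V).card = n := by rw [hnn]; rfl
  -- a vertex of large in-degree
  have hw : ∃ w ∈ W, 8 ≤ (W.filter (fun a => A a w)).card := by
    by_contra hc
    push Not at hc
    have h1 : ∀ v ∈ W, 9 ≤ (W.filter (fun w => A v w)).card := by
      intro v hv
      have e1 := hcon v hv
      have e2 : (W.filter (fun w => A v w ∨ A w v)).card ≤
          (W.filter (fun w => A v w)).card + (W.filter (fun w => A w v)).card := by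
        rw [Finset.filter_or]
        exact Finset.card_union_le _ _
      have e4 := hc v hv
      omega
    obtain ⟨u, hu, huc⟩ := exists_large_in A W W hWne 9 9 h1 le_rfl
    have e4 := hc u hu
    omega
  obtain ⟨w, hw, hwi⟩ := hw
  have hdeg : 16 ≤ (Finset.univ.filter (fun a => A w a ∨ A a w)).card :=
    le_trans (hcon w hw) (Finset.card_le_card
      (Finset.filter_subset_filter _ (Finset.subset_univ _)))
  have hin : 8 ≤ (Finset.univ.filter (fun a => A a w)).card :=
    le_trans hwi (Finset.card_le_card (Finset.filter_subset_filter _ (Finset.subset_univ _)))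
  have hn : 17 ≤ n := by
    have h1 : insert w (Finset.univ.filter (fun a => A w a ∨ A a w)) ⊆ Finset.univ :=
      Finset.subset_univ _
    have h2 := Finset.card_le_card h1
    rw [Finset.card_insert_of_notMem (by simp [hA w]), huniv] at h2
    omega
  -- the directed 4-cycle
  obtain ⟨S, hS⟩ : ∃ S, S = (Finset.univ : Finset V) \ {w} := ⟨_, rfl⟩
  have hScard : S.card + 1 = n := by
    have := Finset.card_sdiff_add_card_eq_card (Finset.subset_univ ({w} : Finset V))
    rw [Finset.card_singleton, huniv] at this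
    rw [hS]
    exact this
  have hSmem : ∀ v, v ∈ S ↔ v ≠ w := by intro v; rw [hS]; simp
  have hSout : ∀ v, (nb A v).card ≤ (S.filter (fun b => A v b)).card + 1 := by
    intro v
    have h1 : (nb A v \ {w}).card ≤ (S.filter (fun b => A v b)).card := by
      apply Finset.card_le_card
      intro x hx
      rw [Finset.mem_sdiff, mem_nb, Finset.mem_singleton] at hx
      rw [Finset.mem_filter, hSmem]
      exact ⟨hx.2, hx.1⟩
    have h2 := Finset.le_card_sdiff {w} (nb A v)
    rw [Finset.card_singleton] at h2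
    omega
  obtain ⟨u, hu, huin⟩ := exists_large_in A S S (Finset.card_pos.1 (by omega))
    ((23 * n + 33) / 34 - 1) ((23 * n + 33) / 34 - 1) (by
      intro v _
      have h3 := h v
      have h4 := hSout v
      omega) le_rfl
  obtain ⟨a, ha, -⟩ := exists_avoid (X := S.filter (fun b => A u b)) (F := ∅)
    (by have := h u; have := hSout u; simp only [Finset.card_empty]; omega)
  rw [Finset.mem_filter] at ha
  have hnbS : nb A w ⊆ S := by
    intro x hx
    rw [mem_nb] at hx
    rw [hSmem]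
    intro e
    exact hA w (by rw [e] at hx; exact hx)
  obtain ⟨b, hb, hbu⟩ := exists_avoid (X := (S.filter (fun b => A a b)) ∩ nb A w) (F := {u})
    (by
      have h1 := inter_large (S := S) (X := S.filter (fun b => A a b)) (Y := nb A w)
        (Finset.filter_subset _ _) hnbS
      have h2 := h a
      have h3 := hSout a
      have h4 := h w
      simp only [Finset.card_singleton]; omega)
  rw [Finset.mem_inter, Finset.mem_filter, mem_nb] at hb
  obtain ⟨c, hc, hca⟩ := exists_avoid
    (X := (S.filter (fun v => A b v)) ∩ (S.filter (fun v => A v u))) (F := {a})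
    (by
      have h1 := h b
      have h2 := hSout b
      have h3 := inter_large (S := S) (X := S.filter (fun v => A b v))
        (Y := S.filter (fun v => A v u)) (Finset.filter_subset _ _) (Finset.filter_subset _ _)
      simp only [Finset.card_singleton]
      omega)
  rw [Finset.mem_inter, Finset.mem_filter, Finset.mem_filter] at hc
  rw [Finset.mem_singleton] at hca hbu
  have hbw : b ≠ w := (hSmem b).1 hb.1.1
  have hcw : c ≠ w := (hSmem c).1 hc.1.1
  have huw : u ≠ w := (hSmem u).1 hu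
  have haw : a ≠ w := (hSmem a).1 ha.1
  obtain ⟨F, hF⟩ : ∃ F, F = [b, c, u, a].toFinset := ⟨_, rfl⟩
  have hFmem : ∀ v, v ∉ F ↔ v ≠ b ∧ v ≠ c ∧ v ≠ u ∧ v ≠ a := by
    intro v; rw [hF]; simp
  have hFc : F.card ≤ 4 := by
    have := List.toFinset_card_le [b, c, u, a]
    rw [hF]; simp only [List.length] at *; omega
  obtain ⟨X, hX⟩ : ∃ X, X = Finset.univ.filter (fun a => A a w) \ F := ⟨_, rfl⟩
  obtain ⟨Z, hZ⟩ : ∃ Z, Z = nb A w \ F := ⟨_, rfl⟩
  have hXc : 4 ≤ X.card := by
    have := Finset.le_card_sdiff F (Finset.univ.filter (fun a => A a w))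
    rw [hX]; omega
  have hZc : 8 ≤ Z.card := by
    have := Finset.le_card_sdiff F (nb A w)
    have := h w
    rw [hZ]; omega
  have hXZc : 12 ≤ (X ∪ Z).card := by
    have h1 := Finset.le_card_sdiff F (Finset.univ.filter (fun a => A w a ∨ A a w))
    have h2 : (Finset.univ.filter (fun a => A w a ∨ A a w)) \ F = X ∪ Z := by
      ext v
      rw [hX, hZ]
      simp only [Finset.mem_sdiff, Finset.mem_filter, Finset.mem_univ, true_and,
        Finset.mem_union, mem_nb]
      tauto
    rw [h2] at h1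
    omega
  -- choose the in-leaves
  have hI : ∃ I ⊆ X, I.card = 4 ∧ 8 ≤ (Z \ I).card := by
    by_cases hbig : 4 ≤ (X \ Z).card
    · obtain ⟨I, hIs, hIc⟩ := Finset.exists_subset_card_eq hbig
      refine ⟨I, hIs.trans Finset.sdiff_subset, hIc, ?_⟩
      have : Z \ I = Z := by
        rw [Finset.sdiff_eq_self_iff_disjoint, Finset.disjoint_left]
        intro v hv hvI
        exact (Finset.mem_sdiff.1 (hIs hvI)).2 hv
      rw [this]; exact hZc
    · obtain ⟨I, hI1, hI2, hI3⟩ := Finset.exists_subsuperset_card_eq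
        (s := X \ Z) (t := X) Finset.sdiff_subset (n := 4) (by omega) hXc
      refine ⟨I, hI2, hI3, ?_⟩
      have h1 : (X ∪ Z) \ I ⊆ Z \ I := by
        intro v hv
        rw [Finset.mem_sdiff, Finset.mem_union] at hv
        rw [Finset.mem_sdiff]
        refine ⟨?_, hv.2⟩
        by_contra hvZ
        rcases hv.1 with h | h
        · exact hv.2 (hI1 (Finset.mem_sdiff.2 ⟨h, hvZ⟩))
        · exact hvZ h
      have h2 := Finset.card_le_card h1
      have h3 := Finset.le_card_sdiff I (X ∪ Z)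
      omega
  obtain ⟨I, hIX, hI, hZI⟩ := hI
  obtain ⟨O, hOs, hO⟩ := Finset.exists_subset_card_eq hZI
  have hImem : ∀ v ∈ I, A v w ∧ v ∉ F := by
    intro v hv
    have := hIX hv
    rw [hX] at this
    simpa using this
  have hOmem : ∀ v ∈ O, (A w v ∧ v ∉ F) ∧ v ∉ I := by
    intro v hv
    have := hOs hv
    rw [hZ] at this
    simpa [mem_nb] using this
  refine contains₃ A hI hO ?_ ![w, b, c, u, a] (inj5' ?_)
    (cases5 (P := fun v => v ∉ I) ?_ ?_ ?_ ?_ ?_)
    (cases5 (P := fun v => v ∉ O) ?_ ?_ ?_ ?_ ?_)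
    (fun v hv => (hImem v hv).1) (fun v hv => (hOmem v hv).1.1) hb.2 hc.1.2 hc.2.2 ha.2 hb.1.2
  · rw [Finset.disjoint_left]
    intro v hv hv'
    exact (hOmem v hv').2 hv
  · simp only [List.nodup_cons, List.mem_cons, List.not_mem_nil, or_false, not_or,
      not_false_eq_true, List.nodup_nil, and_true]
    exact ⟨⟨fun e' => hbw e'.symm, fun e' => hcw e'.symm, fun e' => huw e'.symm,
      fun e' => haw e'.symm⟩, ⟨fun e' => hA c (e' ▸ hc.1.2), hbu, fun e' => hA b (e'.symm ▸ hb.1.2)⟩,
      ⟨fun e' => hA u (e' ▸ hc.2.2), hca⟩, fun e' => hA a (e' ▸ ha.2)⟩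
  · exact fun hv => hA w (hImem w hv).1
  · exact fun hv => ((hFmem b).1 (hImem b hv).2).1 rfl
  · exact fun hv => ((hFmem c).1 (hImem c hv).2).2.1 rfl
  · exact fun hv => ((hFmem u).1 (hImem u hv).2).2.2.1 rfl
  · exact fun hv => ((hFmem a).1 (hImem a hv).2).2.2.2 rfl
  · exact fun hv => hA w (hOmem w hv).1.1
  · exact fun hv => ((hFmem b).1 (hOmem b hv).1.2).1 rfl
  · exact fun hv => ((hFmem c).1 (hOmem c hv).1.2).2.1 rfl
  · exact fun hv => ((hFmem u).1 (hOmem u hv).1.2).2.2.1 rfl
  · exact fun hv => ((hFmem a).1 (hOmem a hv).1.2).2.2.2 rfl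

lemma profile₃ : profileAll R₃ 16 ≤ 23 / 34 := by
  apply csInf_le
  · exact ⟨0, fun d hd => hd.1⟩
  · refine ⟨by norm_num, ?_⟩
    intro n A hG
    apply ChiLE.of_colOn
    apply upper₃ A hG.1
    · intro v
      have h1 := hG.2.2 v
      rw [outDeg_eq] at h1
      have h2 : (23 * n : ℝ) ≤ 34 * (nb A v).card := by linarith
      simp only [Fintype.card_fin]
      exact_mod_cast h2
    · exact hG.2.1

/-- a circulant digraph -/
def Cir (u v : Fin 17) : Prop :=
  1 ≤ (v.val + 17 - u.val) % 17 ∧ (v.val + 17 - u.val) % 17 ≤ 12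

lemma Cir_irrefl (v : Fin 17) : ¬ Cir v v := by
  unfold Cir
  omega

lemma Cir_out (u : Fin 17) : 12 ≤ outDeg Cir u := by
  refine card_le_of_inj _ u (fun j : Fin 12 => ⟨(u.val + j.val + 1) % 17,
    Nat.mod_lt _ (by norm_num)⟩) ?_ ?_
  · intro i j hij
    simp only [Fin.mk.injEq] at hij
    exact Fin.ext (by omega)
  · intro j
    unfold Cir
    simp only
    omega

lemma Cir_chi : ¬ ChiLE Cir 16 := by
  rintro ⟨c, hc⟩
  have hinj : Function.Injective c := by
    intro i j hij
    by_contra hne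
    have h1 : i.val ≠ j.val := fun e => hne (Fin.ext e)
    have h2 : Cir i j ∨ Cir j i := by
      unfold Cir
      omega
    rcases h2 with h | h
    · exact hc _ _ h hij
    · exact hc _ _ h hij.symm
  have := Fintype.card_le_of_injective _ hinj
  simp at this

lemma Cir_in {U : Type} [Fintype U] (hU : 12 < Fintype.card U) (f : U → Fin 17)
    (hf : Function.Injective f) (w : Fin 17) (h : ∀ i, Cir (f i) w) : False := by
  have hinj : Function.Injective (fun i : U =>
      (⟨(w.val + 17 - (f i).val) % 17 - 1, by have := (h i).2; have := (h i).1; omega⟩ : Fin 12)) := by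
    intro i j hij
    simp only [Fin.mk.injEq] at hij
    have h1 := (h i).1
    have h2 := (h j).1
    apply hf
    apply Fin.ext
    omega
  have := Fintype.card_le_of_injective _ hinj
  rw [Fintype.card_fin] at this
  omega

lemma Cir_free : ¬ Contains Cir R₄ := by
  rintro ⟨f, hf, hA⟩
  refine Cir_in (U := Fin 4 ⊕ Fin 8 ⊕ Unit) (by simp) (Sum.elim (fun i => f (.inl i))
    (Sum.elim (fun j => f (.inr (.inl j))) (fun _ => f (.inr (.inr 1))))) ?_ (f (.inr (.inr 0))) ?_
  · rintro (i | i | i) (j | j | j) hij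
    · simpa using hf hij
    · simpa using hf hij
    · simpa using hf hij
    · simpa using hf hij
    · simpa using hf hij
    · simpa using hf hij
    · simpa using hf hij
    · simpa using hf hij
    · rfl
  · rintro (i | i | i)
    · exact hA _ _ (by simp [R₄, b₄])
    · exact hA _ _ (by simp [R₄, b₄])
    · exact hA _ _ (by simp [R₄, b₄])

lemma profile₄ : 12 / 17 ≤ profileAll R₄ 16 := by
  apply le_csInf
  · exact ⟨2, by norm_num, fun n A h => chiLE_zero (good_two h) A 16⟩
  · rintro d ⟨hd, hall⟩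
    by_contra hlt
    push Not at hlt
    apply Cir_chi
    apply hall
    refine ⟨Cir_irrefl, Cir_free, ?_⟩
    intro v
    have e1 : ((12 : ℕ) : ℝ) ≤ outDeg Cir v := by exact_mod_cast Cir_out v
    push_cast at e1 ⊢
    linarith

end Pool.Agent.Q110.OC
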