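import Mathlib
import Pool.Agent.Q110.OC.Thr
import Pool.Agent.Q110.OC.Fam

namespace Pool.Agent.Q110.OC

open Classical

variable {V W : Type}

/-- the shift graph on increasing quadruples needs many colours -/
lemma shift_chi (C N : ℕ) (hN : Fintype.card (Set (Set (Set (Fin C)))) < N)
    (col : Fin N → Fin N → Fin N → Fin N → Fin C)
    (h : ∀ a b c d e, a < b → b < c → c < d → d < e → col a b c d ≠ col b c d e) : False := by
  obtain ⟨c3, hc3⟩ : ∃ c3 : Fin N → Fin N → Fin N → Set (Fin C),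
    c3 = fun a b c => {x | ∃ d, c < d ∧ col a b c d = x} := ⟨_, rfl⟩
  obtain ⟨c2, hc2⟩ : ∃ c2 : Fin N → Fin N → Set (Set (Fin C)),
    c2 = fun a b => {y | ∃ c, b < c ∧ c3 a b c = y} := ⟨_, rfl⟩
  obtain ⟨c1, hc1⟩ : ∃ c1 : Fin N → Set (Set (Set (Fin C))),
    c1 = fun a => {z | ∃ b, a < b ∧ c2 a b = z} := ⟨_, rfl⟩
  have h3 : ∀ a b c d, a < b → b < c → c < d → c3 a b c ≠ c3 b c d := by
    intro a b c d hab hbc hcd e
    have h1 : col a b c d ∈ c3 a b c := by rw [hc3]; exact ⟨d, hcd, rfl⟩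
    rw [e, hc3] at h1
    obtain ⟨x, hx, hx2⟩ := h1
    exact h a b c d x hab hbc hcd hx hx2.symm
  have h2 : ∀ a b c, a < b → b < c → c2 a b ≠ c2 b c := by
    intro a b c hab hbc e
    have h1 : c3 a b c ∈ c2 a b := by rw [hc2]; exact ⟨c, hbc, rfl⟩
    rw [e, hc2] at h1
    obtain ⟨x, hx, hx2⟩ := h1
    exact h3 a b c x hab hbc hx hx2.symm
  have h1 : ∀ a b, a < b → c1 a ≠ c1 b := by
    intro a b hab e
    have h1 : c2 a b ∈ c1 a := by rw [hc1]; exact ⟨b, hab, rfl⟩
    rw [e, hc1] at h1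
    obtain ⟨x, hx, hx2⟩ := h1
    exact h2 a b x hab hx hx2.symm
  have hinj : Function.Injective c1 := by
    intro a b hab
    by_contra hne
    rcases lt_or_gt_of_ne hne with h | h
    · exact h1 a b h hab
    · exact h1 b a h hab.symm
  have := Fintype.card_le_of_injective _ hinj
  rw [Fintype.card_fin] at this
  omega

/-- Vertices: quadruples of elements of `Fin N`, and four classes each consisting of `m` copies of
the power set of `Fin N`. -/
abbrev VS (N m : ℕ) : Type := (Fin N × Fin N × Fin N × Fin N) ⊕ (Fin 4 × (Fin N → Bool) × Fin m)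

/-- Arcs: the shift digraph on increasing quadruples, a blow-up of the directed 4-cycle on the
classes, and arcs from a quadruple to the sets in class 0 that contain its first and omit its last
element. -/
def SH (N m : ℕ) : VS N m → VS N m → Prop
  | .inl (a, b, c, d), .inl (a', b', c', d') =>
      a < b ∧ b < c ∧ c < d ∧ d < d' ∧ a' = b ∧ b' = c ∧ c' = d
  | .inl (a, _, _, d), .inr (i, ω, _) => i = 0 ∧ (a < d → ω a = true ∧ ω d = false)
  | .inr (i, _, _), .inr (j, _, _) => j = i + 1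
  | .inr _, .inl _ => False

lemma SH_irrefl (N m : ℕ) (v : VS N m) : ¬ SH N m v v := by
  rcases v with ⟨a, b, c, d⟩ | ⟨i, ω, j⟩
  · rintro ⟨h1, -, -, -, h5, -, -⟩
    exact absurd h5 h1.ne
  · intro h
    change i = i + 1 at h
    revert h
    revert i
    decide

lemma SH_NoC (N m : ℕ) {v0 v1 v2 v3 v4 : VS N m} (h01 : SH N m v0 v1) (h12 : SH N m v1 v2)
    (h23 : SH N m v2 v3) (h34 : SH N m v3 v4) (h04 : SH N m v0 v4) : False := by
  have d4 : ∀ i : Fin 4, i + 1 + 1 + 1 + 1 ≠ i + 1 := by decide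
  rcases v0 with ⟨a0, b0, c0, d0⟩ | ⟨i0, ω0, j0⟩
  swap
  · rcases v1 with v1 | ⟨i1, ω1, j1⟩
    · exact h01
    rcases v2 with v2 | ⟨i2, ω2, j2⟩
    · exact h12
    rcases v3 with v3 | ⟨i3, ω3, j3⟩
    · exact h23
    rcases v4 with v4 | ⟨i4, ω4, j4⟩
    · exact h34
    change i1 = i0 + 1 at h01
    change i2 = i1 + 1 at h12
    change i3 = i2 + 1 at h23
    change i4 = i3 + 1 at h34
    change i4 = i0 + 1 at h04
    rw [h34, h23, h12, h01] at h04
    exact d4 i0 h04
  rcases v4 with ⟨a4, b4, c4, d4'⟩ | ⟨i4, ω4, j4⟩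
  · rcases v3 with ⟨a3, b3, c3, d3⟩ | v3
    swap
    · exact h34
    rcases v2 with ⟨a2, b2, c2, d2⟩ | v2
    swap
    · exact h23
    rcases v1 with ⟨a1, b1, c1, d1⟩ | v1
    swap
    · exact h12
    obtain ⟨p1, p2, p3, p4, p5, p6, p7⟩ := h01
    obtain ⟨q1, q2, q3, q4, q5, q6, q7⟩ := h12
    obtain ⟨r1, r2, r3, r4, r5, r6, r7⟩ := h23
    obtain ⟨s1, s2, s3, s4, s5, s6, s7⟩ := h34
    obtain ⟨t1, t2, t3, t4, t5, t6, t7⟩ := h04
    simp only [Fin.lt_def, Fin.ext_iff] at *
    omega
  · obtain ⟨t1, t2⟩ := h04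
    rcases v1 with ⟨a1, b1, c1, d1⟩ | ⟨i1, ω1, j1⟩
    · rcases v2 with ⟨a2, b2, c2, d2⟩ | ⟨i2, ω2, j2⟩
      · rcases v3 with ⟨a3, b3, c3, d3⟩ | ⟨i3, ω3, j3⟩
        · obtain ⟨p1, p2, p3, p4, p5, p6, p7⟩ := h01
          obtain ⟨q1, q2, q3, q4, q5, q6, q7⟩ := h12
          obtain ⟨r1, r2, r3, r4, r5, r6, r7⟩ := h23
          obtain ⟨s1, s2⟩ := h34
          have e1 : a0 < d0 := (p1.trans p2).trans p3
          have e2 : a3 = d0 := by rw [r5, q6, p7]
          have e3 : a3 < d3 := by
            rw [r5]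
            exact (r2.trans r3).trans r4
          have e4 := (t2 e1).2
          have e5 := (s2 e3).1
          rw [e2, e4] at e5
          exact absurd e5 (by decide)
        · obtain ⟨s1, -⟩ := h23
          change i4 = i3 + 1 at h34
          rw [s1, t1] at h34
          exact absurd h34 (by decide)
      · obtain ⟨s1, -⟩ := h12
        rcases v3 with v3 | ⟨i3, ω3, j3⟩
        · exact h23
        change i3 = i2 + 1 at h23
        change i4 = i3 + 1 at h34
        rw [h23, s1, t1] at h34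
        exact absurd h34 (by decide)
    · obtain ⟨s1, -⟩ := h01
      rcases v2 with v2 | ⟨i2, ω2, j2⟩
      · exact h12
      rcases v3 with v3 | ⟨i3, ω3, j3⟩
      · exact h23
      change i2 = i1 + 1 at h12
      change i3 = i2 + 1 at h23
      change i4 = i3 + 1 at h34
      rw [h23, h12, s1, t1] at h34
      exact absurd h34 (by decide)

lemma card_quarter (N : ℕ) (a d : Fin N) :
    Fintype.card (Fin N → Bool) ≤
      4 * Fintype.card {ω : Fin N → Bool // a < d → ω a = true ∧ ω d = false} := by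
  have h : Function.Surjective (fun p : (Bool × Bool) ×
      {ω : Fin N → Bool // a < d → ω a = true ∧ ω d = false} =>
      if a < d then Function.update (Function.update p.2.1 a p.1.1) d p.1.2 else p.2.1) := by
    intro η
    by_cases had : a < d
    · refine ⟨((η a, η d), ⟨Function.update (Function.update η a true) d false, ?_⟩), ?_⟩
      · intro _
        rw [Function.update_self, Function.update_of_ne had.ne, Function.update_self]
        exact ⟨rfl, rfl⟩
      · simp only [had, if_true]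
        funext x
        by_cases hx : x = d
        · subst hx; simp
        · by_cases hx2 : x = a
          · subst hx2; simp [Function.update_of_ne hx]
          · simp [Function.update_of_ne hx, Function.update_of_ne hx2]
    · exact ⟨((true, true), ⟨η, fun h => absurd h had⟩), by simp [had]⟩
  have := Fintype.card_le_of_surjective _ h
  rw [Fintype.card_prod, Fintype.card_prod, Fintype.card_bool] at this
  omega

lemma outDeg_ge [Fintype V] {U : Type} [Fintype U] (A : V → V → Prop) (u : V) (g : U → V)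
    (hg : Function.Injective g) (h : ∀ j, A u (g j)) : Fintype.card U ≤ outDeg A u := by
  have h1 : Set.ncard (Set.range g) = Fintype.card U := by
    rw [← Set.image_univ, Set.ncard_image_of_injective _ hg, Set.ncard_univ, Nat.card_eq_fintype_card]
  rw [← h1]
  apply Set.ncard_le_ncard _ (Set.toFinite _)
  rintro _ ⟨j, rfl⟩
  exact h j

lemma SH_out (N m : ℕ) (v : VS N m) :
    Fintype.card (Fin N → Bool) * m ≤ 4 * outDeg (SH N m) v := by
  rcases v with ⟨a, b, c, d⟩ | ⟨i, ω, j⟩
  · have h1 := outDeg_ge (SH N m) (.inl (a, b, c, d))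
      (fun p : {ω : Fin N → Bool // a < d → ω a = true ∧ ω d = false} × Fin m =>
        (.inr (0, p.1.1, p.2) : VS N m)) (by
          rintro ⟨⟨ω, hω⟩, j⟩ ⟨⟨ω', hω'⟩, j'⟩ h
          simpa using h) (fun p => ⟨rfl, p.1.2⟩)
    rw [Fintype.card_prod, Fintype.card_fin] at h1
    have h2 := card_quarter N a d
    calc Fintype.card (Fin N → Bool) * m ≤ (4 * Fintype.card _) * m := Nat.mul_le_mul_right _ h2
      _ = 4 * (Fintype.card _ * m) := by ring
      _ ≤ _ := Nat.mul_le_mul_left _ h1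
  · have h1 := outDeg_ge (SH N m) (.inr (i, ω, j))
      (fun p : (Fin N → Bool) × Fin m =>
        (.inr (i + 1, p.1, p.2) : VS N m)) (by
          rintro ⟨ω, j⟩ ⟨ω', j'⟩ h
          simpa using h) (fun p => rfl)
    rw [Fintype.card_prod, Fintype.card_fin] at h1
    omega

lemma SH_card (N m : ℕ) :
    Fintype.card (VS N m) = N ^ 4 + 4 * (Fintype.card (Fin N → Bool) * m) := by
  simp only [Fintype.card_sum, Fintype.card_prod, Fintype.card_fin]
  ring

/-- transfer to `Fin n` -/
lemma transfer [Fintype V] (A : V → V → Prop) (R : W → W → Prop) (d : ℝ) (C : ℕ)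
    (hirr : ∀ v, ¬ A v v) (hfree : ¬ Contains A R)
    (hout : ∀ v, d * (Fintype.card V : ℝ) ≤ (outDeg A v : ℝ))
    (h : ∀ (n : ℕ) (A : Fin n → Fin n → Prop), Good R d n A → ChiLE A C) : ChiLE A C := by
  obtain ⟨e⟩ : Nonempty (V ≃ Fin (Fintype.card V)) := ⟨Fintype.equivFin V⟩
  have h1 := h (Fintype.card V) (fun u v => A (e.symm u) (e.symm v)) ⟨fun v => hirr _, ?_, ?_⟩
  · obtain ⟨c, hc⟩ := h1
    refine ⟨fun v => c (e v), fun u v huv => hc _ _ ?_⟩
    simpa using huv
  · rintro ⟨f, hf, hfA⟩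
    exact hfree ⟨fun w => e.symm (f w), e.symm.injective.comp hf, hfA⟩
  · intro v
    have h2 : outDeg (fun u v => A (e.symm u) (e.symm v)) v = outDeg A (e.symm v) := by
      unfold outDeg
      have : {w | A (e.symm v) (e.symm w)} = e '' {w | A (e.symm v) w} := by
        ext w
        simp only [Set.mem_ofPred_eq, Set.mem_image]
        constructor
        · intro hw
          exact ⟨e.symm w, hw, by simp⟩
        · rintro ⟨x, hx, rfl⟩
          simpa using hx
      rw [this, Set.ncard_image_of_injective _ e.injective]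
    rw [h2]
    exact hout _

lemma threshold_H₁ (r : ℕ) : 1 / 16 ≤ threshold (H₁ r) := by
  apply le_csInf
  · exact ⟨2, by norm_num, 0, fun n A h => chiLE_zero (good_two h) A 0⟩
  · rintro d ⟨hd, C, hC⟩
    by_contra hlt
    push Not at hlt
    obtain ⟨N, hN⟩ : ∃ N, N = Fintype.card (Set (Set (Set (Fin C)))) + 1 := ⟨_, rfl⟩
    obtain ⟨m, hm⟩ := exists_nat_ge (d * N ^ 4 / (1 / 4 - 4 * d))
    have hpos : 0 < 1 / 4 - 4 * d := by linarith
    rw [div_le_iff₀ hpos] at hm
    have hχ := transfer (SH N m) (H₁ r) d C (SH_irrefl N m) (by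
      rintro ⟨f, -, hf⟩
      exact SH_NoC N m
        (hf (.inl 0) (.inl 1) (by change ((0 : Fin 5), (1 : Fin 5)) ∈ cyc₁; simp [cyc₁]))
        (hf (.inl 1) (.inl 2) (by change ((1 : Fin 5), (2 : Fin 5)) ∈ cyc₁; simp [cyc₁]))
        (hf (.inl 2) (.inl 3) (by change ((2 : Fin 5), (3 : Fin 5)) ∈ cyc₁; simp [cyc₁]))
        (hf (.inl 3) (.inl 4) (by change ((3 : Fin 5), (4 : Fin 5)) ∈ cyc₁; simp [cyc₁]))
        (hf (.inl 0) (.inl 4) (by change ((0 : Fin 5), (4 : Fin 5)) ∈ cyc₁; simp [cyc₁])))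
      (by
        intro v
        have h1 := SH_out N m v
        have h2 := SH_card N m
        have h3 : (1 : ℕ) ≤ Fintype.card (Fin N → Bool) := Fintype.card_pos
        obtain ⟨K, hK⟩ : ∃ K, K = Fintype.card (Fin N → Bool) := ⟨_, rfl⟩
        rw [← hK] at h1 h2 h3
        rw [h2]
        have h1' : (K : ℝ) * m ≤ 4 * (outDeg (SH N m) v : ℝ) := by exact_mod_cast h1
        have h3' : (1 : ℝ) ≤ K := by exact_mod_cast h3
        have hm0 : (0 : ℝ) ≤ m := Nat.cast_nonneg m
        have h4 : (m : ℝ) ≤ K * m := by nlinarith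
        push_cast
        have h5 : (m : ℝ) * (1 / 4 - 4 * d) ≤ (K * m) * (1 / 4 - 4 * d) :=
          mul_le_mul_of_nonneg_right h4 hpos.le
        nlinarith) hC
    obtain ⟨c, hc⟩ := hχ
    refine shift_chi C N (by omega) (fun a b c' d' => c (.inl (a, b, c', d'))) ?_
    intro a b c' d' e hab hbc hcd hde
    exact hc _ _ ⟨hab, hbc, hcd, hde, rfl, rfl, rfl⟩

end Pool.Agent.Q110.OC
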